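import Mathlib
import Pool.Agent.Helper475.Kuhn

set_option autoImplicit false

open Set

/-!
Nagata (Assouad–Nagata) dimension of a subset of a metric space: definition, the upper bound given
by coordinates, and a lower bound from coarse grids (by Kuhn's lemma).
-/

namespace Pool.Agent.V1190.Nag

/-- the set `A` has diameter at most `r` -/
def DiamLE {X : Type*} [PseudoMetricSpace X] (A : Set X) (r : ℝ) : Prop :=
  ∀ x ∈ A, ∀ y ∈ A, dist x y ≤ r

/-- There is `c > 0` such that for every `s > 0` the set `S` has a cover by (sub)sets of diameter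
at most `c s` such that every subset of `S` of diameter at most `s` meets at most `d + 1` members
of the cover. -/
def NagataLE {X : Type*} [PseudoMetricSpace X] (S : Set X) (d : ℕ) : Prop :=
  ∃ c : ℝ, 0 < c ∧ ∀ s : ℝ, 0 < s → ∃ 𝒰 : Set (Set X),
    (∀ U ∈ 𝒰, U ⊆ S ∧ DiamLE U (c * s)) ∧ S ⊆ ⋃₀ 𝒰 ∧
      ∀ A : Set X, A ⊆ S → DiamLE A s → {U | U ∈ 𝒰 ∧ (U ∩ A).Nonempty}.encard ≤ d + 1

/-- The Nagata dimension of `S`: the least `d ≥ 0` with the covering property (`⊤` if none). -/
noncomputable def nagataDim {X : Type*} [PseudoMetricSpace X] (S : Set X) : ℕ∞ :=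
  ⨅ (d : ℕ) (_ : NagataLE S d), (d : ℕ∞)

lemma nagataDim_le {X : Type*} [PseudoMetricSpace X] {S : Set X} {d : ℕ} (h : NagataLE S d) :
    nagataDim S ≤ d := iInf₂_le d h

lemma le_nagataDim {X : Type*} [PseudoMetricSpace X] {S : Set X} {n : ℕ}
    (h : ∀ d, d < n → ¬ NagataLE S d) : (n : ℕ∞) ≤ nagataDim S := by
  refine le_iInf₂ fun d hd => ?_
  by_contra hlt
  push Not at hlt
  exact h d (by exact_mod_cast hlt) hd

/-- Monotonicity. -/
lemma NagataLE.mono {X : Type*} [PseudoMetricSpace X] {S T : Set X} {d : ℕ} (h : NagataLE T d)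
    (hST : S ⊆ T) : NagataLE S d := by
  obtain ⟨c, hc, H⟩ := h
  refine ⟨c, hc, fun s hs => ?_⟩
  obtain ⟨𝒰, h1, h2, h3⟩ := H s hs
  refine ⟨(fun U => U ∩ S) '' 𝒰, ?_, ?_, ?_⟩
  · rintro _ ⟨U, hU, rfl⟩
    exact ⟨inter_subset_right, fun x hx y hy => (h1 U hU).2 x hx.1 y hy.1⟩
  · intro x hx
    obtain ⟨U, hU, hxU⟩ := h2 (hST hx)
    exact ⟨_, ⟨U, hU, rfl⟩, hxU, hx⟩
  · intro A hA hAs
    refine le_trans ?_ (h3 A (hA.trans hST) hAs)
    have : {V | V ∈ (fun U => U ∩ S) '' 𝒰 ∧ (V ∩ A).Nonempty} ⊆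
        (fun U => U ∩ S) '' {U | U ∈ 𝒰 ∧ (U ∩ A).Nonempty} := by
      rintro _ ⟨⟨U, hU, rfl⟩, x, hx⟩
      exact ⟨U, ⟨hU, x, hx.1.1, hx.2⟩, rfl⟩
    exact (encard_le_encard this).trans (encard_image_le _ _)

/-- Upper bound: a set with `m` coordinates controlling the metric has Nagata dimension `≤ m`. -/
theorem nagataLE_of_coords {X : Type*} [PseudoMetricSpace X] {S : Set X} {ι : Type} [Fintype ι]
    (φ : X → ι → ℝ) (C : ℝ) (hC : 0 < C)
    (h1 : ∀ x ∈ S, ∀ y ∈ S, ∀ i, |φ x i - φ y i| ≤ dist x y)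
    (h2 : ∀ x ∈ S, ∀ y ∈ S, ∀ L : ℝ, 0 < L → (∀ i, |φ x i - φ y i| ≤ L) → dist x y ≤ C * L) :
    NagataLE S (Fintype.card ι) := by
  classical
  set m := Fintype.card ι with hm
  have hm0 : (0 : ℝ) ≤ m := Nat.cast_nonneg m
  refine ⟨C * (4 * (m + 1)), by positivity, fun s hs => ?_⟩
  set L : ℝ := 4 * (m + 1) * s with hL
  have hLpos : 0 < L := by positivity
  -- position relative to the `k`-th grid
  let cell : Fin (m + 1) → X → ι → ℤ := fun k x i => ⌊(φ x i - 4 * k * s) / L⌋
  let good : Fin (m + 1) → X → Prop := fun k x => ∀ i,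
    (cell k x i : ℝ) * L + s ≤ φ x i - 4 * k * s ∧ φ x i - 4 * k * s ≤ (cell k x i + 1 : ℝ) * L - s
  let U : Fin (m + 1) → (ι → ℤ) → Set X := fun k c => {x | x ∈ S ∧ cell k x = c ∧ good k x}
  have hcell : ∀ k x i, (cell k x i : ℝ) * L ≤ φ x i - 4 * k * s ∧
      φ x i - 4 * k * s < (cell k x i + 1 : ℝ) * L := by
    intro k x i
    constructor
    · have := Int.floor_le ((φ x i - 4 * k * s) / L)
      rwa [le_div_iff₀ hLpos] at this
    · have := Int.lt_floor_add_one ((φ x i - 4 * k * s) / L)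
      rwa [div_lt_iff₀ hLpos] at this
  refine ⟨{V | ∃ k c, V = U k c}, ?_, ?_, ?_⟩
  · rintro _ ⟨k, c, rfl⟩
    refine ⟨fun x hx => hx.1, ?_⟩
    intro x hx y hy
    have : dist x y ≤ C * L := by
      refine h2 x hx.1 y hy.1 L hLpos fun i => ?_
      have hx1 := hcell k x i
      have hy1 := hcell k y i
      have : cell k x i = cell k y i := by rw [hx.2.1, hy.2.1]
      rw [this] at hx1
      rw [abs_le]
      constructor <;> nlinarith [hx1.1, hx1.2, hy1.1, hy1.2]
    calc dist x y ≤ C * L := this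
      _ = C * (4 * (m + 1)) * s := by rw [hL]; ring
  · intro x hx
    -- for each `i` at most one `k` is bad
    let bad : Fin (m + 1) → ι → Prop := fun k i =>
      ¬ ((cell k x i : ℝ) * L + s ≤ φ x i - 4 * k * s ∧
        φ x i - 4 * k * s ≤ (cell k x i + 1 : ℝ) * L - s)
    have hbad : ∀ i k k', bad k i → bad k' i → k = k' := by
      intro i k k' hk hk'
      by_contra hne
      -- a wall `4 k s + j L` within distance `< s`
      have wall : ∀ k, bad k i → ∃ j : ℤ, |φ x i - 4 * k * s - j * L| < s := by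
        intro k hk
        have h := hcell k x i
        simp only [bad, not_and_or, not_le] at hk
        rcases hk with hk | hk
        · exact ⟨cell k x i, by rw [abs_lt]; constructor <;> linarith [h.1]⟩
        · refine ⟨cell k x i + 1, by push_cast; rw [abs_lt]; constructor <;> linarith [h.2]⟩
      obtain ⟨j, hj⟩ := wall k hk
      obtain ⟨j', hj'⟩ := wall k' hk'
      have h3 : |4 * ((k : ℝ) - k') * s + (j - j' : ℤ) * L| < 2 * s := by
        rw [abs_lt] at hj hj' ⊢
        push_cast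
        constructor <;> nlinarith [hj.1, hj.2, hj'.1, hj'.2]
      have h4 : |(((k : ℕ) : ℤ) - (k' : ℕ) + (j - j') * (m + 1) : ℤ)| < 1 := by
        have h5 : 4 * ((k : ℝ) - k') * s + (j - j' : ℤ) * L =
            4 * s * ((((k : ℕ) : ℤ) - (k' : ℕ) + (j - j') * (m + 1) : ℤ) : ℝ) := by
          rw [hL]; push_cast; ring
        rw [h5, abs_mul, abs_of_pos (by positivity : (0 : ℝ) < 4 * s)] at h3
        have h6 : |((((k : ℕ) : ℤ) - (k' : ℕ) + (j - j') * (m + 1) : ℤ) : ℝ)| < 1 := by
          nlinarith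
        rw [← Int.cast_abs] at h6
        exact_mod_cast h6
      rw [Int.abs_lt_one_iff] at h4
      have hk1 := k.2
      have hk2 := k'.2
      have h7 : j - j' = 0 := by
        by_contra h8
        rcases lt_or_gt_of_ne h8 with h9 | h9
        · have : (j - j') * ((m : ℤ) + 1) ≤ -1 * ((m : ℤ) + 1) := by
            apply mul_le_mul_of_nonneg_right <;> omega
          omega
        · have : 1 * ((m : ℤ) + 1) ≤ (j - j') * ((m : ℤ) + 1) := by
            apply mul_le_mul_of_nonneg_right <;> omega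
          omega
      rw [h7] at h4
      apply hne
      apply Fin.ext
      omega
    have hex : ∃ k, good k x := by
      by_contra hno
      push Not at hno
      have hbk : ∀ k, ∃ i, bad k i := by
        intro k
        have := hno k
        simp only [good] at this
        push Not at this
        obtain ⟨i, hi⟩ := this
        refine ⟨i, ?_⟩
        simp only [bad, not_and, not_le]
        exact hi
      choose w hw using hbk
      have hinj : Function.Injective w := by
        intro k k' hkk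
        exact hbad (w k) k k' (hw k) (by rw [hkk]; exact hw k')
      have := Fintype.card_le_of_injective w hinj
      simp at this
      omega
    obtain ⟨k, hk⟩ := hex
    exact ⟨U k (cell k x), ⟨k, _, rfl⟩, hx, rfl, hk⟩
  · intro A hA hAs
    have huniq : ∀ k c c', (U k c ∩ A).Nonempty → (U k c' ∩ A).Nonempty → c = c' := by
      rintro k c c' ⟨x, hx, hxA⟩ ⟨y, hy, hyA⟩
      rw [← hx.2.1, ← hy.2.1]
      funext i
      have hd := (h1 x hx.1 y hy.1 i).trans (hAs x hxA y hyA)
      have hxg := hx.2.2 i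
      have hyg := hy.2.2 i
      rw [abs_le] at hd
      by_contra hne
      rcases lt_or_gt_of_ne hne with hlt | hlt
      · have : ((cell k x i : ℝ) + 1) ≤ cell k y i := by exact_mod_cast hlt
        have : ((cell k x i : ℝ) + 1) * L ≤ cell k y i * L := by gcongr
        linarith [hxg.2, hyg.1, hd.1]
      · have : ((cell k y i : ℝ) + 1) ≤ cell k x i := by exact_mod_cast hlt
        have : ((cell k y i : ℝ) + 1) * L ≤ cell k x i * L := by gcongr
        linarith [hyg.2, hxg.1, hd.2]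
    let cc : Fin (m + 1) → (ι → ℤ) := fun k =>
      if h : ∃ c, (U k c ∩ A).Nonempty then h.choose else 0
    have hsub : {V | V ∈ {V | ∃ k c, V = U k c} ∧ (V ∩ A).Nonempty} ⊆
        (fun k => U k (cc k)) '' univ := by
      rintro _ ⟨⟨k, c, rfl⟩, hne⟩
      refine ⟨k, mem_univ _, ?_⟩
      have hex : ∃ c, (U k c ∩ A).Nonempty := ⟨c, hne⟩
      have : cc k = c := by
        simp only [cc, dif_pos hex]
        exact huniq k _ _ hex.choose_spec hne
      simp only [this]
    refine (encard_le_encard hsub).trans ((encard_image_le _ _).trans ?_)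
    rw [encard_univ]
    simp

/-- Lower bound: if `S` contains coarse images of arbitrarily large `n`-dimensional grids, with
a fixed step, its Nagata dimension is at least `n`. -/
theorem not_nagataLE_of_grid {X : Type*} [PseudoMetricSpace X] {S : Set X} {n : ℕ} {s0 lam : ℝ}
    (hs0 : 0 < s0) (hlam : 0 < lam)
    (h : ∀ m : ℕ, ∃ P : (ℕ → ℕ) → X, (∀ x, (∀ i, x i ≤ m) → P x ∈ S) ∧
      (∀ x y, (∀ i, x i ≤ m) → (∀ i, y i ≤ m) →
        (∀ i, i < n → y i = x i ∨ y i = x i + 1) → dist (P x) (P y) ≤ s0) ∧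
      ∀ x y, (∀ i, x i ≤ m) → (∀ i, y i ≤ m) → ∀ i, i < n → x i = m → y i = 0 →
        lam * m ≤ dist (P x) (P y))
    {d : ℕ} (hd : d < n) : ¬ NagataLE S d := by
  classical
  rintro ⟨c, hc, H⟩
  obtain ⟨𝒰, hU1, hU2, hU3⟩ := H (2 * s0) (by positivity)
  obtain ⟨m, hm⟩ := exists_nat_gt (c * (2 * s0) / lam)
  rw [div_lt_iff₀ hlam] at hm
  obtain ⟨P, hPS, hup, hlow⟩ := h m
  have hu : ∀ x : ℕ → ℕ, ∃ U : Set X, (∀ i, x i ≤ m) → U ∈ 𝒰 ∧ P x ∈ U := by
    intro x
    by_cases hx : ∀ i, x i ≤ m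
    · obtain ⟨U, hU, hxU⟩ := hU2 (hPS x hx)
      exact ⟨U, fun _ => ⟨hU, hxU⟩⟩
    · exact ⟨∅, fun h => absurd h hx⟩
  choose u hu using hu
  let L : Set X → ℕ := fun V =>
    if h : ∃ i, i < n ∧ ¬ ∃ z : ℕ → ℕ, (∀ i, z i ≤ m) ∧ z i = 0 ∧ P z ∈ V then Nat.find h else n
  have L_le : ∀ V, L V ≤ n := by
    intro V
    simp only [L]
    split_ifs with h
    · exact (Nat.find_spec h).1.le
    · exact le_rfl
  obtain ⟨x, hx, hall⟩ := Pool.Agent.Helper475.Kuhn.kuhn n m (fun x => L (u x))
    (fun x _ => L_le _)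
    (by
      intro i hi x hxm hxi hL
      simp only [L] at hL
      split_ifs at hL with h
      · have := (Nat.find_spec h).2
        rw [hL] at this
        exact this ⟨x, hxm, hxi, (hu x hxm).2⟩
      · omega)
    (by
      intro i hi x hxm hxi
      have hC : i < n ∧ ¬ ∃ z : ℕ → ℕ, (∀ i, z i ≤ m) ∧ z i = 0 ∧ P z ∈ u x := by
        refine ⟨hi, ?_⟩
        rintro ⟨z, hzm, hz, hzU⟩
        have h1 := (hU1 _ (hu x hxm).1).2 _ (hu x hxm).2 _ hzU
        have h2 := hlow x z hxm hzm i hi hxi hz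
        linarith
      simp only [L]
      rw [dif_pos ⟨i, hC⟩]
      exact Nat.find_min' _ hC)
  choose y hy hy0 hlam' using fun j : Fin (n + 1) => hall j (Nat.lt_succ_iff.1 j.2)
  let x' : ℕ → ℕ := fun i => if i < n then x i else 0
  have hx' : ∀ i, x' i ≤ m := by
    intro i
    simp only [x']
    split_ifs with hi
    · exact (hx i hi).le
    · exact Nat.zero_le _
  have hym : ∀ j, ∀ i, y j i ≤ m := by
    intro j i
    by_cases hi : i < n
    · have := hx i hi
      rcases hy j i hi with h | h <;> omega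
    · rw [hy0 j i (by omega)]; exact Nat.zero_le _
  have hinj : Function.Injective (fun j : Fin (n + 1) => u (y j)) := by
    intro j j' hjj
    have h1 := hlam' j
    have h2 := hlam' j'
    simp only at hjj
    rw [hjj] at h1
    exact Fin.ext (h1.symm.trans h2)
  have hclose : ∀ j, dist (P x') (P (y j)) ≤ s0 := by
    intro j
    refine hup x' (y j) hx' (hym j) ?_
    intro i hi
    simp only [x', if_pos hi]
    exact hy j i hi
  have hA1 : range (fun j => P (y j)) ⊆ S := by
    rintro _ ⟨j, rfl⟩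
    exact hPS _ (hym j)
  have hA2 : DiamLE (range (fun j => P (y j))) (2 * s0) := by
    rintro _ ⟨j, rfl⟩ _ ⟨j', rfl⟩
    have := dist_triangle_left (P (y j)) (P (y j')) (P x')
    simp only
    linarith [hclose j, hclose j']
  have hsub : Set.range (fun j : Fin (n + 1) => u (y j)) ⊆
      {U | U ∈ 𝒰 ∧ (U ∩ range (fun j => P (y j))).Nonempty} := by
    rintro _ ⟨j, rfl⟩
    exact ⟨(hu _ (hym j)).1, P (y j), (hu _ (hym j)).2, ⟨j, rfl⟩⟩
  have h1 := Set.encard_le_encard hsub
  have h2 : (Set.range (fun j : Fin (n + 1) => u (y j))).encard = ((n + 1 : ℕ) : ℕ∞) := by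
    rw [← Set.image_univ, hinj.encard_image, Set.encard_univ]
    simp
  rw [h2] at h1
  have h3 := h1.trans (hU3 _ hA1 hA2)
  have h4 : n + 1 ≤ d + 1 := by exact_mod_cast h3
  omega

end Pool.Agent.V1190.Nag
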