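import Mathlib

set_option autoImplicit false

open MeasureTheory Set Metric
open scoped ENNReal NNReal ContDiff

/-!
Sobolev / quasiregular vocabulary in `ℝⁿ` and the fact that a locally Lipschitz map is in
`W^{1,n}_loc` with weak derivative equal to its a.e. classical derivative.
-/

namespace Pool.Agent.V1190.Nag

/-- Euclidean space `ℝⁿ` -/
abbrev Eu (n : ℕ) := EuclideanSpace ℝ (Fin n)

/-- linear maps of `ℝⁿ` -/
abbrev Lin (n : ℕ) := Eu n →L[ℝ] Eu n

/-- Lebesgue measure restricted to a set -/
noncomputable def volOn {n : ℕ} (K : Set (Eu n)) : Measure (Eu n) := volume.restrict K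

/-- `f` is in `L^n` on every compact subset of `Ω` -/
def LocLnVec {n : ℕ} (Ω : Set (Eu n)) (f : Eu n → Eu n) : Prop :=
  ∀ K : Set (Eu n), IsCompact K → K ⊆ Ω → MemLp f n (volOn K)

/-- the matrix-valued `Df` is in `L^n` on every compact subset of `Ω` -/
def LocLnMat {n : ℕ} (Ω : Set (Eu n)) (Df : Eu n → Lin n) : Prop :=
  ∀ K : Set (Eu n), IsCompact K → K ⊆ Ω → MemLp Df n (volOn K)

/-- smooth test functions with compact support in `Ω` -/
def IsTest {n : ℕ} (Ω : Set (Eu n)) (φ : Eu n → ℝ) : Prop :=
  ContDiff ℝ ∞ φ ∧ HasCompactSupport φ ∧ tsupport φ ⊆ Ω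

/-- the derivative of a scalar function at `x` in the direction `v` -/
noncomputable def dirDeriv {n : ℕ} (φ : Eu n → ℝ) (x v : Eu n) : ℝ := fderiv ℝ φ x v

/-- the value of a linear map of `ℝⁿ` at a vector -/
def app {n : ℕ} (A : Lin n) (v : Eu n) : Eu n := A v

/-- integral of a vector-valued function over `ℝⁿ` -/
noncomputable def integ {n : ℕ} (F : Eu n → Eu n) : Eu n := ∫ x, F x

/-- `Df` is the weak (distributional) derivative of `f` on `Ω` -/
def WeakDeriv {n : ℕ} (Ω : Set (Eu n)) (f : Eu n → Eu n) (Df : Eu n → Lin n) : Prop :=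
  ∀ φ : Eu n → ℝ, IsTest Ω φ → ∀ v : Eu n,
    integ (fun x => φ x • app (Df x) v) = - integ (fun x => dirDeriv φ x v • f x)

/-- `f ∈ W^{1,n}_loc(Ω; ℝⁿ)` with weak derivative `Df` -/
def IsW1n {n : ℕ} (Ω : Set (Eu n)) (f : Eu n → Eu n) (Df : Eu n → Lin n) : Prop :=
  LocLnVec Ω f ∧ LocLnMat Ω Df ∧ WeakDeriv Ω f Df

/-- operator norm of a linear map of `ℝⁿ` -/
noncomputable def opN {n : ℕ} (A : Lin n) : ℝ := ‖A‖

/-- determinant of a linear map of `ℝⁿ` -/
noncomputable def detL {n : ℕ} (A : Lin n) : ℝ := A.det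

/-- The analytic part of the definition of a quasiregular map on `Ω`: the map lies in
`W^{1,n}_loc(Ω; ℝⁿ)` and for some `K ≥ 1` one has `|Df|ⁿ ≤ K J_f` almost everywhere in `Ω`. -/
def BoundedDistortion {n : ℕ} (Ω : Set (Eu n)) (f : Eu n → Eu n) : Prop :=
  ∃ Df : Eu n → Lin n, IsW1n Ω f Df ∧
    ∃ K : ℝ, 1 ≤ K ∧ ∀ᵐ x ∂(volOn Ω), opN (Df x) ^ n ≤ K * detL (Df x)

lemma ae_ball_differentiableAt {n : ℕ} {f : Eu n → Eu n} (hf : LocallyLipschitz f) :
    ∀ᵐ x, DifferentiableAt ℝ f x := by
  have key : ∀ k : ℕ, ∀ᵐ x, x ∈ ball (0 : Eu n) k → DifferentiableAt ℝ f x := by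
    intro k
    obtain ⟨C, hC⟩ := (hf.locallyLipschitzOn (s := closedBall (0 : Eu n) k)).exists_lipschitzOnWith_of_compact
      (isCompact_closedBall _ _)
    have h1 := (hC.mono ball_subset_closedBall).ae_differentiableWithinAt_of_mem (μ := volume)
    filter_upwards [h1] with x hx hxb
    exact (hx hxb).differentiableAt (isOpen_ball.mem_nhds hxb)
  rw [← ae_all_iff] at key
  filter_upwards [key] with x hx
  obtain ⟨k, hk⟩ := exists_nat_gt ‖x‖
  exact hx k (by simpa using hk)

lemma isW1n_of_locallyLipschitz {n : ℕ} (Ω : Set (Eu n)) {f : Eu n → Eu n}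
    (hf : LocallyLipschitz f) : IsW1n Ω f (fun x => fderiv ℝ f x) := by
  refine ⟨?_, ?_, ?_⟩
  · intro K hK _
    unfold volOn
    have : IsFiniteMeasure (volume.restrict K) := ⟨by simpa using hK.measure_lt_top⟩
    obtain ⟨C, hC⟩ := hK.exists_bound_of_continuousOn (hf.continuous.norm.continuousOn (s := K))
    refine MemLp.of_bound hf.continuous.aestronglyMeasurable C ?_
    filter_upwards [ae_restrict_mem hK.measurableSet] with x hx
    simpa using hC x hx
  · intro K hK _
    unfold volOn
    have : IsFiniteMeasure (volume.restrict K) := ⟨by simpa using hK.measure_lt_top⟩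
    obtain ⟨R, hR⟩ := hK.isBounded.subset_ball (0 : Eu n)
    obtain ⟨C, hC⟩ := (hf.locallyLipschitzOn (s := closedBall (0 : Eu n) R)).exists_lipschitzOnWith_of_compact
      (isCompact_closedBall _ _)
    refine MemLp.of_bound (measurable_fderiv ℝ f).aestronglyMeasurable C ?_
    filter_upwards [ae_restrict_mem hK.measurableSet] with x hx
    exact norm_fderiv_le_of_lipschitzOn ℝ
      (Filter.mem_of_superset (isOpen_ball.mem_nhds (hR hx)) ball_subset_closedBall) hC
  · rintro φ ⟨hφ, hφc, _⟩ v
    unfold integ app dirDeriv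
    obtain ⟨R, hR⟩ := hφc.isCompact.isBounded.subset_ball (0 : Eu n)
    obtain ⟨C, hC⟩ := (hf.locallyLipschitzOn (s := closedBall (0 : Eu n) R)).exists_lipschitzOnWith_of_compact
      (isCompact_closedBall _ _)
    have hCb : LipschitzOnWith C f (ball (0 : Eu n) R) := hC.mono ball_subset_closedBall
    obtain ⟨D, hD⟩ := hφ.lipschitzWith_of_hasCompactSupport hφc (by simp)
    obtain ⟨M, hM⟩ := hφ.continuous.bounded_above_of_compact_support hφc
    have hsub : tsupport φ ⊆ ball (0 : Eu n) R := hR
    have hint1 : Integrable (fun x => φ x • fderiv ℝ f x v) := by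
      rw [← integrableOn_iff_integrable_of_support_subset (s := ball (0 : Eu n) R)]
      · refine Measure.integrableOn_of_bounded (M := M * (C * ‖v‖)) ?_ ?_ ?_
        · exact measure_ball_lt_top.ne
        · exact hφ.continuous.aestronglyMeasurable.smul
            ((measurable_fderiv_apply_const ℝ f v).aestronglyMeasurable)
        · filter_upwards [ae_restrict_mem isOpen_ball.measurableSet] with x hx
          rw [norm_smul]
          have h1 : ‖fderiv ℝ f x‖ ≤ C := norm_fderiv_le_of_lipschitzOn ℝ
            (isOpen_ball.mem_nhds hx) hCb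
          have h2 : ‖fderiv ℝ f x v‖ ≤ C * ‖v‖ :=
            (ContinuousLinearMap.le_opNorm _ _).trans (by gcongr)
          exact mul_le_mul (hM x) h2 (norm_nonneg _) ((norm_nonneg _).trans (hM x))
      · refine subset_trans ?_ hsub
        intro x hx
        apply subset_tsupport φ
        intro h0
        apply hx
        simp [h0]
    have hint2 : Integrable (fun x => (fderiv ℝ φ x v) • f x) := by
      apply Continuous.integrable_of_hasCompactSupport
      · exact ((hφ.continuous_fderiv (by simp)).clm_apply continuous_const).smul hf.continuous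
      · refine HasCompactSupport.of_support_subset_isCompact hφc.isCompact ?_
        intro x hx
        apply support_fderiv_subset ℝ
        intro h0
        apply hx
        simp [h0]
    ext i
    have e1 : (∫ x, φ x • fderiv ℝ f x v) i = ∫ x, φ x * (fderiv ℝ f x v) i := by
      have := (EuclideanSpace.proj (𝕜 := ℝ) i).integral_comp_comm hint1
      simpa using this.symm
    have e2 : (∫ x, (fderiv ℝ φ x v) • f x) i = ∫ x, (fderiv ℝ φ x v) * f x i := by
      have := (EuclideanSpace.proj (𝕜 := ℝ) i).integral_comp_comm hint2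
      simpa using this.symm
    have hfi : LipschitzOnWith C (fun x => f x i) (ball (0 : Eu n) R) := by
      intro x hx y hy
      refine le_trans ?_ (hCb hx hy)
      simp only [edist_dist]
      apply ENNReal.ofReal_le_ofReal
      rw [dist_eq_norm, dist_eq_norm]
      have := PiLp.norm_apply_le (f x - f y) i
      simpa using this
    obtain ⟨g, hg, hgf⟩ := hfi.extend_real
    have e3 : ∫ x, φ x * (fderiv ℝ f x v) i = ∫ x, lineDeriv ℝ g x v * φ x := by
      apply integral_congr_ae
      filter_upwards [ae_ball_differentiableAt hf] with x hx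
      by_cases hxb : x ∈ ball (0 : Eu n) R
      · have h1 : HasFDerivAt (fun y => f y i) ((EuclideanSpace.proj (𝕜 := ℝ) i).comp (fderiv ℝ f x)) x :=
          (EuclideanSpace.proj (𝕜 := ℝ) i).hasFDerivAt.comp x hx.hasFDerivAt
        have h2 : HasFDerivAt g ((EuclideanSpace.proj (𝕜 := ℝ) i).comp (fderiv ℝ f x)) x := by
          refine h1.congr_of_eventuallyEq ?_
          filter_upwards [isOpen_ball.mem_nhds hxb] with y hy
          exact (hgf hy).symm
        rw [(h2.hasLineDerivAt v).lineDeriv]
        simp [mul_comm]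
      · have : φ x = 0 := by
          by_contra h
          exact hxb (hsub (subset_tsupport φ h))
        simp [this]
    have e4 : ∫ x, (fderiv ℝ φ x v) * f x i = - ∫ x, lineDeriv ℝ φ x (-v) * g x := by
      rw [← integral_neg]
      apply integral_congr_ae
      refine Filter.Eventually.of_forall ?_
      intro x
      have h1 : DifferentiableAt ℝ φ x := hφ.differentiable (by simp) x
      simp only
      rw [h1.lineDeriv_eq_fderiv]
      by_cases hxb : x ∈ ball (0 : Eu n) R
      · rw [← hgf hxb]; simp
      · have : fderiv ℝ φ x = 0 := by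
          by_contra h
          exact hxb (hsub (support_fderiv_subset ℝ h))
        simp [this]
    have e5 := hg.integral_lineDeriv_mul_eq (μ := volume) hD hφc v
    rw [e1, e3, e5]
    simp only [PiLp.neg_apply]
    rw [e2, e4, neg_neg]

end Pool.Agent.V1190.Nag
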