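import Mathlib
import Pool.Agent.V1190.Nag.Sob
import Pool.Agent.V1190.Nag.Nagata

set_option autoImplicit false

open MeasureTheory Set Metric
open scoped ENNReal NNReal ContDiff

/-!
The spiral roll `(s, u, z) ↦ ((θ - u) cos θ, (θ - u) sin θ, z)`, `θ = √(2s)`.
-/

namespace Pool.Agent.V1190.Nag

/-- `θ(s) = √(2s)` for `s ≥ 1/2`, and `1` below -/
noncomputable def th (s : ℝ) : ℝ := √(max (2 * s) 1)

lemma one_le_th (s : ℝ) : 1 ≤ th s := by
  unfold th
  rw [Real.one_le_sqrt]
  exact le_max_right _ _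

lemma th_pos (s : ℝ) : 0 < th s := lt_of_lt_of_le one_pos (one_le_th s)

lemma th_sq {s : ℝ} (hs : 1 / 2 ≤ s) : th s ^ 2 = 2 * s := by
  unfold th
  rw [Real.sq_sqrt (le_trans (by norm_num) (le_max_right _ _)), max_eq_left (by linarith)]

lemma th_of_sq {t : ℝ} (ht : 1 ≤ t) : th (t ^ 2 / 2) = t := by
  unfold th
  rw [max_eq_left (by nlinarith)]
  have : 2 * (t ^ 2 / 2) = t ^ 2 := by ring
  rw [this, Real.sqrt_sq (by linarith)]

lemma hasStrictDerivAt_th {s : ℝ} (hs : 1 / 2 < s) : HasStrictDerivAt th (1 / th s) s := by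
  have h0 : (2 * s) ≠ 0 := by linarith
  have h1 : HasStrictDerivAt (fun x : ℝ => √(2 * x)) (1 / (2 * √(2 * s)) * (2 * 1)) s :=
    (Real.hasStrictDerivAt_sqrt h0).comp s ((hasStrictDerivAt_id s).const_mul 2)
  have h2 : √(2 * s) = th s := by
    unfold th; rw [max_eq_left (by linarith)]
  have h3 : 1 / (2 * √(2 * s)) * (2 * 1) = 1 / th s := by
    rw [h2]; have := th_pos s; field_simp
  rw [h3] at h1
  refine h1.congr_of_eventuallyEq ?_
  filter_upwards [lt_mem_nhds hs] with x hx
  unfold th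
  rw [max_eq_left (by linarith)]

lemma lipschitz_th : LipschitzWith 1 th := by
  apply LipschitzWith.of_dist_le_mul
  intro s t
  rw [Real.dist_eq, Real.dist_eq]
  simp only [NNReal.coe_one, one_mul]
  have h1 := one_le_th s
  have h2 := one_le_th t
  have h3 : (th s - th t) * (th s + th t) = max (2 * s) 1 - max (2 * t) 1 := by
    have e1 : th s ^ 2 = max (2 * s) 1 := by
      unfold th; exact Real.sq_sqrt (le_trans (by norm_num) (le_max_right _ _))
    have e2 : th t ^ 2 = max (2 * t) 1 := by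
      unfold th; exact Real.sq_sqrt (le_trans (by norm_num) (le_max_right _ _))
    rw [← e1, ← e2]; ring
  have h4 : |max (2 * s) 1 - max (2 * t) 1| ≤ 2 * |s - t| := by
    refine (abs_max_sub_max_le_abs _ _ _).trans ?_
    rw [← mul_sub, abs_mul]; norm_num
  have h5 : |th s - th t| * (th s + th t) ≤ 2 * |s - t| := by
    rw [← abs_of_pos (by linarith : 0 < th s + th t), ← abs_mul, h3]
    exact h4
  nlinarith [abs_nonneg (th s - th t)]

variable {m : ℕ}

/-- change of the first coordinate `s ↦ θ(s)` -/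
noncomputable def Psi (x : Eu (m + 2)) : Eu (m + 2) :=
  WithLp.toLp 2 (fun i => if i = 0 then th (x 0) else x i)

/-- the smooth roll in terms of `θ` -/
noncomputable def Phi (y : Eu (m + 2)) : Eu (m + 2) :=
  WithLp.toLp 2 (fun i => if i = 0 then (y 0 - y 1) * Real.cos (y 0)
    else if i = 1 then (y 0 - y 1) * Real.sin (y 0) else y i)

/-- the spiral roll -/
noncomputable def G (x : Eu (m + 2)) : Eu (m + 2) :=
  WithLp.toLp 2 (fun i => if i = 0 then (th (x 0) - x 1) * Real.cos (th (x 0))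
    else if i = 1 then (th (x 0) - x 1) * Real.sin (th (x 0)) else x i)

lemma G_eq (x : Eu (m + 2)) : G x = Phi (Psi x) := by
  ext i
  simp only [G, Phi, Psi]
  by_cases h0 : i = 0
  · simp [h0]
  · by_cases h1 : i = 1
    · simp [h1]
    · simp [h0, h1]

lemma lipschitz_Psi : LipschitzWith 1 (Psi : Eu (m + 2) → Eu (m + 2)) := by
  apply LipschitzWith.of_dist_le_mul
  intro x y
  simp only [NNReal.coe_one, one_mul]
  rw [EuclideanSpace.dist_eq, EuclideanSpace.dist_eq]
  apply Real.sqrt_le_sqrt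
  apply Finset.sum_le_sum
  intro i _
  simp only [Psi]
  by_cases h0 : i = 0
  · subst h0
    simp only [if_true]
    have := lipschitz_th.dist_le_mul (x 0) (y 0)
    simp only [NNReal.coe_one, one_mul] at this
    gcongr
  · simp [h0]

lemma locallyLipschitz_G : LocallyLipschitz (G : Eu (m + 2) → Eu (m + 2)) := by
  have h1 : ContDiff ℝ 1 (Phi : Eu (m + 2) → Eu (m + 2)) := by
    rw [contDiff_euclidean]
    intro i
    simp only [Phi]
    by_cases h0 : i = 0
    · simp only [h0, if_true]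
      fun_prop
    · by_cases h1 : i = 1
      · simp only [h1, one_ne_zero, if_false, if_true]
        fun_prop
      · simp only [h0, h1, if_false]
        fun_prop
  have : (G : Eu (m + 2) → Eu (m + 2)) = Phi ∘ Psi := by
    funext x; exact G_eq x
  rw [this]
  exact h1.locallyLipschitz.comp lipschitz_Psi.locallyLipschitz

/-- the derivative of `G` -/
noncomputable def DG (x : Eu (m + 2)) : Eu (m + 2) →L[ℝ] Eu (m + 2) :=
  ((EuclideanSpace.equiv (Fin (m + 2)) ℝ).symm : (Fin (m + 2) → ℝ) →L[ℝ] Eu (m + 2)).comp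
  (ContinuousLinearMap.pi (fun i : Fin (m + 2) => if i = 0 then
      (((1 / th (x 0)) * Real.cos (th (x 0)) - (th (x 0) - x 1) * Real.sin (th (x 0)) * (1 / th (x 0))) •
        (EuclideanSpace.proj 0 : Eu (m + 2) →L[ℝ] ℝ) - Real.cos (th (x 0)) • (EuclideanSpace.proj 1 : Eu (m + 2) →L[ℝ] ℝ))
    else if i = 1 then
      (((1 / th (x 0)) * Real.sin (th (x 0)) + (th (x 0) - x 1) * Real.cos (th (x 0)) * (1 / th (x 0))) •
        (EuclideanSpace.proj 0 : Eu (m + 2) →L[ℝ] ℝ) - Real.sin (th (x 0)) • (EuclideanSpace.proj 1 : Eu (m + 2) →L[ℝ] ℝ))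
    else (EuclideanSpace.proj i : Eu (m + 2) →L[ℝ] ℝ)))

lemma DG_apply0 (x v : Eu (m + 2)) : DG x v 0 = ((1 / th (x 0)) * Real.cos (th (x 0)) -
    (th (x 0) - x 1) * Real.sin (th (x 0)) * (1 / th (x 0))) * v 0 - Real.cos (th (x 0)) * v 1 := by
  simp [DG]

lemma DG_apply1 (x v : Eu (m + 2)) : DG x v 1 = ((1 / th (x 0)) * Real.sin (th (x 0)) +
    (th (x 0) - x 1) * Real.cos (th (x 0)) * (1 / th (x 0))) * v 0 - Real.sin (th (x 0)) * v 1 := by
  simp [DG]

lemma DG_apply (x v : Eu (m + 2)) (i : Fin (m + 2)) (h0 : i ≠ 0) (h1 : i ≠ 1) :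
    DG x v i = v i := by
  simp [DG, h0, h1]

lemma hasStrictFDerivAt_G {x : Eu (m + 2)} (hx : 1 / 2 < x 0) : HasStrictFDerivAt G (DG x) x := by
  rw [hasStrictFDerivAt_euclidean]
  intro i
  have hp0 : HasStrictFDerivAt (fun y : Eu (m + 2) => y 0) (EuclideanSpace.proj 0 : Eu (m + 2) →L[ℝ] ℝ) x :=
    (EuclideanSpace.proj 0 : Eu (m + 2) →L[ℝ] ℝ).hasStrictFDerivAt
  have hp1 : HasStrictFDerivAt (fun y : Eu (m + 2) => y 1) (EuclideanSpace.proj 1 : Eu (m + 2) →L[ℝ] ℝ) x :=
    (EuclideanSpace.proj 1 : Eu (m + 2) →L[ℝ] ℝ).hasStrictFDerivAt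
  have hth : HasStrictFDerivAt (fun y : Eu (m + 2) => th (y 0))
      ((1 / th (x 0)) • (EuclideanSpace.proj 0 : Eu (m + 2) →L[ℝ] ℝ)) x :=
    HasStrictDerivAt.comp_hasStrictFDerivAt (h₂ := th) (f := fun y : Eu (m + 2) => y 0) x
      (hasStrictDerivAt_th hx) hp0
  have hcos : HasStrictFDerivAt (fun y : Eu (m + 2) => Real.cos (th (y 0)))
      ((-Real.sin (th (x 0))) • ((1 / th (x 0)) • (EuclideanSpace.proj 0 : Eu (m + 2) →L[ℝ] ℝ))) x :=
    (Real.hasStrictDerivAt_cos _).comp_hasStrictFDerivAt x hth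
  have hsin : HasStrictFDerivAt (fun y : Eu (m + 2) => Real.sin (th (y 0)))
      ((Real.cos (th (x 0))) • ((1 / th (x 0)) • (EuclideanSpace.proj 0 : Eu (m + 2) →L[ℝ] ℝ))) x :=
    (Real.hasStrictDerivAt_sin _).comp_hasStrictFDerivAt x hth
  by_cases h0 : i = 0
  · subst h0
    have := (hth.sub hp1).mul hcos
    have e : (fun y : Eu (m + 2) => G y 0) = fun y => (th (y 0) - y 1) * Real.cos (th (y 0)) := by
      funext y; simp [G]
    rw [e]
    refine this.congr_fderiv ?_
    ext v
    simp [DG]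
    ring
  · by_cases h1 : i = 1
    · subst h1
      have := (hth.sub hp1).mul hsin
      have e : (fun y : Eu (m + 2) => G y 1) = fun y => (th (y 0) - y 1) * Real.sin (th (y 0)) := by
        funext y; simp [G]
      rw [e]
      refine this.congr_fderiv ?_
      ext v
      simp [DG]
      ring
    · have e : (fun y : Eu (m + 2) => G y i) = fun y => y i := by
        funext y; simp [G, h0, h1]
      rw [e]
      refine ((EuclideanSpace.proj i : Eu (m + 2) →L[ℝ] ℝ).hasStrictFDerivAt).congr_fderiv ?_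
      ext v
      simp [DG, h0, h1]

lemma det_two (m : ℕ) (M : Matrix (Fin (m + 2)) (Fin (m + 2)) ℝ)
    (h : ∀ i j : Fin (m + 2), i ≠ 0 → i ≠ 1 → M i j = if i = j then 1 else 0) :
    M.det = M 0 0 * M 1 1 - M 0 1 * M 1 0 := by
  induction m with
  | zero => exact Matrix.det_fin_two M
  | succ m ih =>
    rw [Matrix.det_succ_row M (Fin.last (m + 2))]
    have hl0 : Fin.last (m + 2) ≠ 0 := by
      intro h; have := congrArg Fin.val h; simp at this
    have hl1 : Fin.last (m + 2) ≠ 1 := by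
      intro h; have := congrArg Fin.val h; simp at this
    rw [Finset.sum_eq_single (Fin.last (m + 2))]
    · rw [h _ _ hl0 hl1, if_pos rfl, ih]
      · have hs : ((-1 : ℝ) ^ ((Fin.last (m + 2) : ℕ) + (Fin.last (m + 2) : ℕ))) = 1 := by
          rw [← two_mul, pow_mul]; simp
        rw [hs]
        simp only [Matrix.submatrix_apply, Fin.succAbove_last, one_mul, Fin.castSucc_zero]
        simp [Fin.castSucc_one]
      · intro i j hi hj
        simp only [Matrix.submatrix_apply, Fin.succAbove_last]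
        rw [h]
        · simp [Fin.castSucc_inj]
        · intro hh; apply hi; rw [← Fin.castSucc_inj]; simpa using hh
        · intro hh; apply hj; rw [← Fin.castSucc_inj]; simpa using hh
    · intro j _ hj
      rw [h _ _ hl0 hl1, if_neg (Ne.symm hj)]
      simp
    · simp

lemma det_DG {x : Eu (m + 2)} : (DG x).det = (th (x 0) - x 1) / th (x 0) := by
  have hpos := th_pos (x 0)
  rw [ContinuousLinearMap.det, ← LinearMap.det_toMatrix (EuclideanSpace.basisFun (Fin (m + 2)) ℝ).toBasis,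
    det_two]
  · simp only [LinearMap.toMatrix_apply, OrthonormalBasis.coe_toBasis, OrthonormalBasis.coe_toBasis_repr_apply,
      EuclideanSpace.basisFun_repr, EuclideanSpace.basisFun_apply, ContinuousLinearMap.coe_coe]
    rw [DG_apply0, DG_apply1, DG_apply0, DG_apply1]
    simp
    have := Real.sin_sq_add_cos_sq (th (x 0))
    field_simp
    linear_combination (th (x 0) - x 1) * this
  · intro i j h0 h1
    simp only [LinearMap.toMatrix_apply, OrthonormalBasis.coe_toBasis, OrthonormalBasis.coe_toBasis_repr_apply,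
      EuclideanSpace.basisFun_repr, EuclideanSpace.basisFun_apply, ContinuousLinearMap.coe_coe]
    rw [DG_apply _ _ _ h0 h1]
    simp

lemma norm_DG_le {x : Eu (m + 2)} (hx : |x 1| ≤ 1 / 2) : ‖DG x‖ ≤ 3 := by
  refine ContinuousLinearMap.opNorm_le_bound _ (by norm_num) fun v => ?_
  have h1 := one_le_th (x 0)
  have hpos := th_pos (x 0)
  rw [← abs_of_nonneg (norm_nonneg (DG x v)), ← abs_of_nonneg (by positivity : 0 ≤ 3 * ‖v‖),
    ← sq_le_sq, mul_pow, EuclideanSpace.real_norm_sq_eq, EuclideanSpace.real_norm_sq_eq,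
    Fin.sum_univ_succ, Fin.sum_univ_succ, Fin.sum_univ_succ, Fin.sum_univ_succ]
  have h2 : ∀ i : Fin m, DG x v (Fin.succ (Fin.succ i)) = v (Fin.succ (Fin.succ i)) := by
    intro i
    apply DG_apply
    · exact Fin.succ_ne_zero _
    · intro h; have := congrArg Fin.val h; simp at this
  have h3 : (Fin.succ 0 : Fin (m + 2)) = 1 := rfl
  simp only [h2, h3]
  rw [DG_apply0, DG_apply1]
  have hS : (0 : ℝ) ≤ ∑ i : Fin m, v (Fin.succ (Fin.succ i)) ^ 2 :=
    Finset.sum_nonneg fun _ _ => sq_nonneg _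
  set t := th (x 0)
  set u := x 1
  set a := v 0
  set b := v 1
  have hsc := Real.sin_sq_add_cos_sq t
  have e : (((1 / t) * Real.cos t - (t - u) * Real.sin t * (1 / t)) * a - Real.cos t * b) ^ 2 +
      (((1 / t) * Real.sin t + (t - u) * Real.cos t * (1 / t)) * a - Real.sin t * b) ^ 2 =
      (a / t - b) ^ 2 + ((t - u) / t * a) ^ 2 := by
    field_simp
    linear_combination ((a - t * b) ^ 2 + ((t - u) * a) ^ 2) * hsc
  have hu := abs_le.1 hx
  have h4 : (a / t) ^ 2 ≤ a ^ 2 := by
    rw [div_pow]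
    apply div_le_self (sq_nonneg _)
    nlinarith
  have h5 : ((t - u) / t * a) ^ 2 ≤ (3 / 2) ^ 2 * a ^ 2 := by
    rw [mul_pow]
    have : ((t - u) / t) ^ 2 ≤ (3 / 2) ^ 2 := by
      apply sq_le_sq'
      · have : 0 ≤ (t - u) / t := div_nonneg (by linarith [hu.2]) hpos.le
        linarith
      · rw [div_le_iff₀ hpos]; linarith [hu.1]
    nlinarith [sq_nonneg a]
  have h6 : (a / t - b) ^ 2 ≤ 2 * a ^ 2 + 2 * b ^ 2 := by
    nlinarith [sq_nonneg (a / t + b)]
  nlinarith [sq_nonneg a, sq_nonneg b]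

theorem norm_le_of_coord {n : ℕ} (v : Eu n) (L : ℝ) (hL : 0 ≤ L) (h : ∀ i, |v i| ≤ L) :
    ‖v‖ ≤ n * L := by
  rw [← abs_of_nonneg (norm_nonneg v), ← abs_of_nonneg (by positivity : 0 ≤ n * L), ← sq_le_sq,
    EuclideanSpace.real_norm_sq_eq]
  calc ∑ i, v i ^ 2 ≤ ∑ _i : Fin n, L ^ 2 := by
        apply Finset.sum_le_sum
        intro i _
        rw [← sq_abs]
        have := h i
        gcongr
    _ = n * L ^ 2 := by simp
    _ ≤ (n * L) ^ 2 := by
        rw [mul_pow]
        rcases Nat.eq_zero_or_pos n with h0 | h0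
        · simp [h0]
        · have : (1 : ℝ) ≤ n := by exact_mod_cast h0
          nlinarith [sq_nonneg L, mul_nonneg (by positivity : (0:ℝ) ≤ n) (sq_nonneg L)]

lemma abs_coord_le {n : ℕ} (v : Eu n) (i : Fin n) : |v i| ≤ ‖v‖ := by
  have := PiLp.norm_apply_le v i
  simpa using this

/-- every point of the plane far from the origin is within `π` of the spiral -/
lemma exists_spiral {X Y : ℝ} (h : 5 ≤ √(X ^ 2 + Y ^ 2)) : ∃ t : ℝ, 1 < t ∧
    |t * Real.cos t - X| ≤ 4 ∧ |t * Real.sin t - Y| ≤ 4 := by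
  set z : ℂ := ⟨X, Y⟩ with hz
  have hnorm : ‖z‖ = √(X ^ 2 + Y ^ 2) := by
    rw [Complex.norm_def, Complex.normSq_apply]; simp [hz, sq]
  set ρ := ‖z‖ with hρ
  have hρ5 : 5 ≤ ρ := by rw [hnorm]; exact h
  set k : ℤ := round ((ρ - Complex.arg z) / (2 * Real.pi)) with hk
  set t := Complex.arg z + k * (2 * Real.pi) with ht
  have hpi := Real.pi_pos
  have hpi4 := Real.pi_lt_four
  have h1 : |t - ρ| ≤ Real.pi := by
    have := abs_sub_round ((ρ - Complex.arg z) / (2 * Real.pi))
    rw [← hk] at this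
    have h2 : t - ρ = -(((ρ - Complex.arg z) / (2 * Real.pi) - k) * (2 * Real.pi)) := by
      rw [ht]; field_simp; ring
    rw [h2, abs_neg, abs_mul, abs_of_pos (by positivity : 0 < 2 * Real.pi)]
    nlinarith
  have hcos : ρ * Real.cos t = X := by
    rw [ht, Real.cos_add_int_mul_two_pi]
    exact Complex.norm_mul_cos_arg z
  have hsin : ρ * Real.sin t = Y := by
    rw [ht, Real.sin_add_int_mul_two_pi]
    exact Complex.norm_mul_sin_arg z
  have h2 := abs_le.1 h1
  refine ⟨t, by linarith, ?_, ?_⟩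
  · rw [← hcos, ← sub_mul, abs_mul]
    have := Real.abs_cos_le_one t
    nlinarith [abs_nonneg (t - ρ), abs_nonneg (Real.cos t)]
  · rw [← hsin, ← sub_mul, abs_mul]
    have := Real.abs_sin_le_one t
    nlinarith [abs_nonneg (t - ρ), abs_nonneg (Real.sin t)]

/-- Coarse grid lower bound for sets containing the spiral (times the first `k` further
coordinates). -/
theorem not_nagataLE_spiral {S : Set (Eu (m + 2))} {k : ℕ} (hk : k ≤ m)
    (hS : ∀ t : ℝ, 1 < t → ∀ z : ℕ → ℝ, (∀ i, k + 2 ≤ i → z i = 0) →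
      (WithLp.toLp 2 (fun i : Fin (m + 2) => if i = 0 then t * Real.cos t
        else if i = 1 then t * Real.sin t else z i) : Eu (m + 2)) ∈ S)
    {d : ℕ} (hd : d < k + 2) : ¬ NagataLE S d := by
  classical
  refine not_nagataLE_of_grid (n := k + 2) (s0 := (m + 2 : ℕ) * 24) (lam := 1) (by positivity)
    one_pos ?_ hd
  intro N
  have hsp : ∀ x : ℕ → ℕ, ∃ t : ℝ, 1 < t ∧ |t * Real.cos t - (5 + 16 * x 0)| ≤ 4 ∧
      |t * Real.sin t - 16 * x 1| ≤ 4 := by
    intro x
    apply exists_spiral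
    apply Real.le_sqrt_of_sq_le
    have : (0 : ℝ) ≤ x 0 := Nat.cast_nonneg _
    nlinarith [sq_nonneg ((16 : ℝ) * x 1)]
  choose T hT1 hT2 hT3 using hsp
  let z : (ℕ → ℕ) → ℕ → ℝ := fun x i => if i < k + 2 then 16 * x i else 0
  let P : (ℕ → ℕ) → Eu (m + 2) := fun x => WithLp.toLp 2 (fun i : Fin (m + 2) =>
    if i = 0 then T x * Real.cos (T x) else if i = 1 then T x * Real.sin (T x) else z x i)
  have hP0 : ∀ x, P x 0 = T x * Real.cos (T x) := by intro x; simp [P]
  have hP1 : ∀ x, P x 1 = T x * Real.sin (T x) := by intro x; simp [P]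
  have hPi : ∀ x (i : Fin (m + 2)), i ≠ 0 → i ≠ 1 → P x i = z x i := by
    intro x i h0 h1; simp [P, h0, h1]
  refine ⟨P, fun x _ => hS (T x) (hT1 x) (z x) (fun i hi => by simp [z, not_lt.2 hi]), ?_, ?_⟩
  · intro x y _ _ hxy
    rw [dist_eq_norm]
    refine norm_le_of_coord _ 24 (by norm_num) fun i => ?_
    simp only [PiLp.sub_apply]
    have step : ∀ i : ℕ, i < k + 2 → |(16 : ℝ) * x i - 16 * y i| ≤ 16 := by
      intro i hi
      rcases hxy i hi with h | h
      · rw [h]; simp
      · rw [h]; push_cast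
        rw [abs_le]; constructor <;> linarith
    by_cases h0 : i = 0
    · subst h0
      rw [hP0, hP0]
      have h1 := abs_le.1 (hT2 x)
      have h2 := abs_le.1 (hT2 y)
      have h3 := abs_le.1 (step 0 (by omega))
      rw [abs_le]; constructor <;> linarith [h1.1, h1.2, h2.1, h2.2, h3.1, h3.2]
    · by_cases h1 : i = 1
      · subst h1
        rw [hP1, hP1]
        have h1 := abs_le.1 (hT3 x)
        have h2 := abs_le.1 (hT3 y)
        have h3 := abs_le.1 (step 1 (by omega))
        rw [abs_le]; constructor <;> linarith [h1.1, h1.2, h2.1, h2.2, h3.1, h3.2]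
      · rw [hPi _ _ h0 h1, hPi _ _ h0 h1]
        simp only [z]
        by_cases hi : (i : ℕ) < k + 2
        · rw [if_pos hi, if_pos hi]
          exact (step _ hi).trans (by norm_num)
        · simp [hi]
  · intro x y _ _ i hi hxi hyi
    rw [one_mul]
    rcases Nat.eq_zero_or_pos N with hN | hN
    · rw [hN]; simp
    have hN1 : (1 : ℝ) ≤ N := by exact_mod_cast hN
    rw [dist_eq_norm]
    refine le_trans ?_ (abs_coord_le (P x - P y) ⟨i, by omega⟩)
    simp only [PiLp.sub_apply]
    rcases Nat.eq_zero_or_pos i with h0 | h0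
    · subst h0
      have e : (⟨0, by omega⟩ : Fin (m + 2)) = 0 := rfl
      rw [e, hP0, hP0]
      have h1 := abs_le.1 (hT2 x)
      have h2 := abs_le.1 (hT2 y)
      rw [hxi] at h1
      rw [hyi] at h2
      push_cast at h2
      refine le_trans ?_ (le_abs_self _)
      linarith [h1.1, h2.2]
    · by_cases h1' : i = 1
      · subst h1'
        have e : (⟨1, by omega⟩ : Fin (m + 2)) = 1 := by
          apply Fin.ext; simp
        rw [e, hP1, hP1]
        have h1 := abs_le.1 (hT3 x)
        have h2 := abs_le.1 (hT3 y)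
        rw [hxi] at h1
        rw [hyi] at h2
        push_cast at h2
        refine le_trans ?_ (le_abs_self _)
        linarith [h1.1, h2.2]
      · have hne0 : (⟨i, by omega⟩ : Fin (m + 2)) ≠ 0 := by
          intro h; have := congrArg Fin.val h; simp at this; omega
        have hne1 : (⟨i, by omega⟩ : Fin (m + 2)) ≠ 1 := by
          intro h; have := congrArg Fin.val h; simp at this; omega
        rw [hPi _ _ hne0 hne1, hPi _ _ hne0 hne1]
        simp only [z, if_pos hi]
        rw [hxi, hyi]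
        refine le_trans ?_ (le_abs_self _)
        push_cast
        linarith

end Pool.Agent.V1190.Nag
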