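import Mathlib
import Pool.Agent.V1190.Nag.Sob

set_option autoImplicit false

open MeasureTheory Set Metric Filter
open scoped ENNReal NNReal ContDiff Topology

/-!
Radial stretchings and the one-step operator for a Moran-type quasiconformal map.
-/

namespace Pool.Agent.V1190.Nag

/-- admissible ratio -/
def Ok (a : ℝ) : Prop := 1 / 64 ≤ a ∧ a ≤ 1 / 4

/-- radial profile -/
noncomputable def rho (a b r : ℝ) : ℝ :=
  if r ≤ a then (b / a) * r else if r ≤ 1 / 2 then b + (1 / 2 - b) / (1 / 2 - a) * (r - a) else r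

lemma alpha_bounds {a b : ℝ} (ha : Ok a) (hb : Ok b) :
    1 / 2 ≤ (1 / 2 - b) / (1 / 2 - a) ∧ (1 / 2 - b) / (1 / 2 - a) ≤ 2 := by
  obtain ⟨a1, a2⟩ := ha
  obtain ⟨b1, b2⟩ := hb
  constructor
  · rw [le_div_iff₀ (by linarith)]; linarith
  · rw [div_le_iff₀ (by linarith)]; linarith

lemma ratio_bounds {a b : ℝ} (ha : Ok a) (hb : Ok b) : 1 / 16 ≤ b / a ∧ b / a ≤ 16 := by
  obtain ⟨a1, a2⟩ := ha
  obtain ⟨b1, b2⟩ := hb
  constructor
  · rw [le_div_iff₀ (by linarith)]; linarith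
  · rw [div_le_iff₀ (by linarith)]; linarith

lemma rho_half {a b : ℝ} (ha : Ok a) : rho a b (1 / 2) = 1 / 2 := by
  obtain ⟨a1, a2⟩ := ha
  unfold rho
  rw [if_neg (by linarith), if_pos le_rfl, div_mul_cancel₀ _ (by linarith)]
  ring

lemma rho_small {a b r : ℝ} (h : r ≤ a) : rho a b r = (b / a) * r := by
  unfold rho; rw [if_pos h]

lemma rho_big {a b r : ℝ} (ha : Ok a) (h : 1 / 2 ≤ r) : rho a b r = r := by
  rcases eq_or_lt_of_le h with h | h
  · rw [← h, rho_half ha]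
  · unfold rho
    rw [if_neg (by linarith [ha.2]), if_neg (by linarith)]

lemma rho_mid {a b r : ℝ} (h : a < r) (h2 : r ≤ 1 / 2) :
    rho a b r = b + (1 / 2 - b) / (1 / 2 - a) * (r - a) := by
  unfold rho; rw [if_neg (by linarith), if_pos h2]

lemma rho_zero {a b : ℝ} (ha : Ok a) : rho a b 0 = 0 := by
  rw [rho_small (by linarith [ha.1]), mul_zero]

lemma rho_nonneg {a b r : ℝ} (ha : Ok a) (hb : Ok b) (hr : 0 ≤ r) : 0 ≤ rho a b r := by
  have h1 := (ratio_bounds ha hb).1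
  have h2 := (alpha_bounds ha hb).1
  rcases le_or_gt r a with h | h
  · rw [rho_small h]; nlinarith
  · rcases le_or_gt r (1 / 2) with h' | h'
    · rw [rho_mid h h']; nlinarith [hb.1]
    · rw [rho_big ha h'.le]; exact hr

lemma rho_lt_half {a b r : ℝ} (ha : Ok a) (hb : Ok b) (h : r < 1 / 2) :
    rho a b r < 1 / 2 := by
  have h1 := ratio_bounds ha hb
  have h2 := alpha_bounds ha hb
  rcases le_or_gt r a with h | h'
  · rw [rho_small h]
    have : b / a * r ≤ b / a * a := mul_le_mul_of_nonneg_left h (by linarith)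
    rw [div_mul_cancel₀ _ (by linarith [ha.1])] at this
    linarith [hb.2]
  · rw [rho_mid h' h.le]
    have e : (1 / 2 - b) / (1 / 2 - a) * (1 / 2 - a) = 1 / 2 - b :=
      div_mul_cancel₀ _ (by linarith [ha.2])
    nlinarith

lemma rho_le_b {a b r : ℝ} (ha : Ok a) (hb : Ok b) (h : r ≤ a) : rho a b r ≤ b := by
  rw [rho_small h]
  have : b / a * r ≤ b / a * a := mul_le_mul_of_nonneg_left h (by linarith [(ratio_bounds ha hb).1])
  rwa [div_mul_cancel₀ _ (by linarith [ha.1])] at this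

lemma b_lt_rho {a b r : ℝ} (ha : Ok a) (hb : Ok b) (h : a < r) : b < rho a b r := by
  have h2 := alpha_bounds ha hb
  rcases le_or_gt r (1 / 2) with h' | h'
  · rw [rho_mid h h']; nlinarith
  · rw [rho_big ha h'.le]; linarith [hb.2]

lemma rho_inv {a b r : ℝ} (ha : Ok a) (hb : Ok b) : rho b a (rho a b r) = r := by
  have h1 := ratio_bounds ha hb
  have h2 := alpha_bounds ha hb
  have a0 : a ≠ 0 := by linarith [ha.1]
  have b0 : b ≠ 0 := by linarith [hb.1]
  rcases le_or_gt r a with h | h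
  · rw [rho_small (rho_le_b ha hb h), rho_small h]
    field_simp
  · have hb' := b_lt_rho ha hb h
    rcases lt_or_ge r (1 / 2) with h' | h'
    · rw [rho_mid hb' (rho_lt_half ha hb h').le, rho_mid h h'.le]
      have e1 : (1 / 2 - a) ≠ 0 := by linarith [ha.2]
      have e2 : (1 / 2 - b) ≠ 0 := by linarith [hb.2]
      have key : ∀ A B t : ℝ, A ≠ 0 → B ≠ 0 → A / B * (B / A * t) = t := by
        intro A B t hA hB; field_simp
      rw [add_sub_cancel_left, key _ _ _ e1 e2]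
      ring
    · rw [rho_big ha h', rho_big hb h']

lemma rho_lip {a b : ℝ} (ha : Ok a) (hb : Ok b) (r s : ℝ) :
    |rho a b r - rho a b s| ≤ 16 * |r - s| := by
  have key : ∀ r s, r ≤ s → |rho a b r - rho a b s| ≤ 16 * (s - r) := by
    intro r s hrs
    have h1 := ratio_bounds ha hb
    have h2 := alpha_bounds ha hb
    have e1 : b / a * a = b := div_mul_cancel₀ _ (by linarith [ha.1])
    have e2 : (1 / 2 - b) / (1 / 2 - a) * (1 / 2 - a) = 1 / 2 - b :=
      div_mul_cancel₀ _ (by linarith [ha.2])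
    set q := b / a
    set al := (1 / 2 - b) / (1 / 2 - a)
    rcases le_or_gt r a with hr | hr
    · rcases le_or_gt s a with hs | hs
      · rw [rho_small hr, rho_small hs, abs_le]; constructor <;> nlinarith
      · rcases le_or_gt s (1 / 2) with hs' | hs'
        · rw [rho_small hr, rho_mid hs hs', abs_le]; constructor <;> nlinarith
        · rw [rho_small hr, rho_big ha hs'.le, abs_le]; constructor <;> nlinarith [ha.2, hb.2]
    · rcases le_or_gt r (1 / 2) with hr' | hr'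
      · rcases le_or_gt s (1 / 2) with hs' | hs'
        · rw [rho_mid hr hr', rho_mid (hr.trans_le hrs) hs', abs_le]; constructor <;> nlinarith
        · rw [rho_mid hr hr', rho_big ha hs'.le, abs_le]; constructor <;> nlinarith
      · rw [rho_big ha hr'.le, rho_big ha (hr'.le.trans hrs), abs_le]; constructor <;> linarith
  rcases le_total r s with h | h
  · rw [abs_of_nonpos (by linarith : r - s ≤ 0)]; have := key r s h; linarith
  · rw [abs_sub_comm, abs_of_nonneg (by linarith : 0 ≤ r - s)]; exact key s r h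

abbrev E2 := Eu 2

/-- radial map -/
noncomputable def Rd (a b : ℝ) (v : E2) : E2 := (rho a b ‖v‖ / ‖v‖) • v

lemma norm_Rd {a b : ℝ} (ha : Ok a) (hb : Ok b) (v : E2) : ‖Rd a b v‖ = rho a b ‖v‖ := by
  unfold Rd
  rcases eq_or_ne v 0 with h | h
  · subst h; simp [rho_zero ha]
  · rw [norm_smul, Real.norm_eq_abs, abs_of_nonneg (div_nonneg (rho_nonneg ha hb (norm_nonneg _)) (norm_nonneg _)),
      div_mul_cancel₀ _ (norm_ne_zero_iff.2 h)]

lemma Rd_inv {a b : ℝ} (ha : Ok a) (hb : Ok b) (v : E2) : Rd b a (Rd a b v) = v := by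
  rcases eq_or_ne v 0 with h | h
  · subst h; simp [Rd]
  · have hv : ‖v‖ ≠ 0 := norm_ne_zero_iff.2 h
    have h1 : Rd b a (Rd a b v) = (rho b a (rho a b ‖v‖) / rho a b ‖v‖) • Rd a b v := by
      conv_lhs => rw [Rd, norm_Rd ha hb]
    rw [h1, rho_inv ha hb, Rd, smul_smul]
    have hpos : 0 < ‖v‖ := norm_pos_iff.2 h
    have hrho : rho a b ‖v‖ ≠ 0 := by
      intro h0
      have := rho_inv (r := ‖v‖) ha hb
      rw [h0, rho_zero hb] at this
      exact hv this.symm
    have : ‖v‖ / rho a b ‖v‖ * (rho a b ‖v‖ / ‖v‖) = 1 := by field_simp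
    rw [this, one_smul]

lemma Rd_small {a b : ℝ} {v : E2} (h : ‖v‖ ≤ a) : Rd a b v = (b / a) • v := by
  rcases eq_or_ne v 0 with h0 | h0
  · subst h0; simp [Rd]
  · unfold Rd
    rw [rho_small h, mul_div_assoc, div_self (norm_ne_zero_iff.2 h0), mul_one]

lemma Rd_big {a b : ℝ} (ha : Ok a) {v : E2} (h : 1 / 2 ≤ ‖v‖) : Rd a b v = v := by
  unfold Rd
  rw [rho_big ha h, div_self (by linarith), one_smul]

lemma Rd_lip {a b : ℝ} (ha : Ok a) (hb : Ok b) (v w : E2) :
    ‖Rd a b v - Rd a b w‖ ≤ 48 * ‖v - w‖ := by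
  rcases eq_or_ne v 0 with hv | hv
  · subst hv
    have : Rd a b 0 = 0 := by simp [Rd]
    rw [this, zero_sub, norm_neg, norm_Rd ha hb, zero_sub, norm_neg]
    have := rho_lip ha hb ‖w‖ 0
    rw [rho_zero ha, sub_zero, sub_zero, abs_of_nonneg (norm_nonneg w)] at this
    have h2 := le_abs_self (rho a b ‖w‖)
    nlinarith [norm_nonneg w]
  rcases eq_or_ne w 0 with hw | hw
  · subst hw
    have : Rd a b 0 = 0 := by simp [Rd]
    rw [this, sub_zero, norm_Rd ha hb, sub_zero]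
    have := rho_lip ha hb ‖v‖ 0
    rw [rho_zero ha, sub_zero, sub_zero, abs_of_nonneg (norm_nonneg v)] at this
    have h2 := le_abs_self (rho a b ‖v‖)
    nlinarith [norm_nonneg v]
  have hv' : 0 < ‖v‖ := norm_pos_iff.2 hv
  have hw' : 0 < ‖w‖ := norm_pos_iff.2 hw
  have e : Rd a b v - Rd a b w = ((rho a b ‖v‖ - rho a b ‖w‖) / ‖v‖) • v +
      (rho a b ‖w‖ / ‖w‖ / ‖v‖) • (‖w‖ • v - ‖v‖ • w) := by
    unfold Rd
    rw [smul_sub, smul_smul, smul_smul, ← add_sub_assoc, ← add_smul]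
    congr 2
    · field_simp; ring
    · field_simp
  rw [e]
  refine (norm_add_le _ _).trans ?_
  rw [norm_smul, norm_smul, norm_div, norm_norm, div_mul_cancel₀ _ hv'.ne']
  have h1 : ‖rho a b ‖v‖ - rho a b ‖w‖‖ ≤ 16 * ‖v - w‖ := by
    rw [Real.norm_eq_abs]
    refine (rho_lip ha hb _ _).trans ?_
    have := abs_norm_sub_norm_le v w
    linarith
  have h2 : ‖(‖w‖ • v - ‖v‖ • w)‖ ≤ 2 * ‖v‖ * ‖v - w‖ := by
    have e2 : ‖w‖ • v - ‖v‖ • w = (‖w‖ - ‖v‖) • v + ‖v‖ • (v - w) := by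
      rw [sub_smul, smul_sub]; abel
    rw [e2]
    refine (norm_add_le _ _).trans ?_
    rw [norm_smul, norm_smul, norm_norm, Real.norm_eq_abs]
    have := abs_norm_sub_norm_le w v
    rw [norm_sub_rev w v] at this
    nlinarith
  have h3 : ‖rho a b ‖w‖ / ‖w‖ / ‖v‖‖ ≤ 16 / ‖v‖ := by
    rw [norm_div, norm_div, norm_norm, norm_norm, Real.norm_eq_abs]
    have := rho_lip ha hb ‖w‖ 0
    rw [rho_zero ha, sub_zero, sub_zero, abs_of_nonneg (norm_nonneg w)] at this
    have h4 : |rho a b ‖w‖| / ‖w‖ ≤ 16 := by rw [div_le_iff₀ hw']; exact this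
    gcongr
  have h4 : ‖rho a b ‖w‖ / ‖w‖ / ‖v‖‖ * ‖(‖w‖ • v - ‖v‖ • w)‖ ≤ 32 * ‖v - w‖ := by
    calc ‖rho a b ‖w‖ / ‖w‖ / ‖v‖‖ * ‖(‖w‖ • v - ‖v‖ • w)‖ ≤ (16 / ‖v‖) * (2 * ‖v‖ * ‖v - w‖) := by
          gcongr
      _ = 32 * ‖v - w‖ := by field_simp; ring
  linarith

end Pool.Agent.V1190.Nag
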