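import Mathlib
import Pool.Agent.V1190.Nag.Radial

set_option autoImplicit false

open MeasureTheory Set Metric Filter
open scoped ENNReal NNReal ContDiff Topology

/-!
The one-step operator for a Moran-type quasiconformal map.
-/

namespace Pool.Agent.V1190.Nag

/-- constant of distortion -/
noncomputable def KK : ℝ := 48 ^ 2 * 64

/-- differentiability with controlled distortion at a point -/
def Good (f : E2 → E2) (x : E2) : Prop :=
  DifferentiableAt ℝ f x ∧ ‖fderiv ℝ f x‖ ^ 2 ≤ KK * (fderiv ℝ f x).det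

lemma Good.congr {f g : E2 → E2} {x : E2} (h : Good g x) (hfg : f =ᶠ[𝓝 x] g) : Good f x := by
  refine ⟨h.1.congr_of_eventuallyEq hfg, ?_⟩
  rw [hfg.fderiv_eq]; exact h.2

lemma det_smul2 (c : ℝ) (A : E2 →L[ℝ] E2) : (c • A).det = c ^ 2 * A.det := by
  unfold ContinuousLinearMap.det
  have : ((c • A : E2 →L[ℝ] E2) : E2 →ₗ[ℝ] E2) = c • (A : E2 →ₗ[ℝ] E2) := rfl
  rw [this, LinearMap.det_smul]
  simp

lemma Good.affine {g : E2 → E2} {x c d : E2} {a b : ℝ} (h : Good g (a⁻¹ • (x - c))) :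
    Good (fun y => d + b • g (a⁻¹ • (y - c))) x := by
  have h1 : HasFDerivAt (fun y : E2 => a⁻¹ • (y - c)) (a⁻¹ • ContinuousLinearMap.id ℝ E2) x :=
    ((hasFDerivAt_id x).sub_const c).const_smul a⁻¹
  have h2 : HasFDerivAt (fun y : E2 => g (a⁻¹ • (y - c)))
      ((fderiv ℝ g (a⁻¹ • (x - c))).comp (a⁻¹ • ContinuousLinearMap.id ℝ E2)) x :=
    h.1.hasFDerivAt.comp x h1
  have h3 : HasFDerivAt (fun y : E2 => d + b • g (a⁻¹ • (y - c)))
      ((b * a⁻¹) • fderiv ℝ g (a⁻¹ • (x - c))) x := by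
    refine ((h2.const_smul b).const_add d).congr_fderiv ?_
    ext v : 1
    simp [smul_smul]
  refine ⟨h3.differentiableAt, ?_⟩
  rw [h3.fderiv, det_smul2, norm_smul, mul_pow, Real.norm_eq_abs, sq_abs]
  have := h.2
  have h5 : 0 ≤ (b * a⁻¹) ^ 2 := sq_nonneg _
  nlinarith

lemma good_id (x : E2) : Good (fun y => y) x := by
  refine ⟨differentiableAt_id, ?_⟩
  rw [fderiv_fun_id]
  have h1 : ‖(ContinuousLinearMap.id ℝ E2)‖ ≤ 1 := ContinuousLinearMap.norm_id_le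
  have h2 : (ContinuousLinearMap.id ℝ E2).det = 1 := by
    unfold ContinuousLinearMap.det
    simp
  rw [h2]
  unfold KK
  nlinarith [norm_nonneg (ContinuousLinearMap.id ℝ E2)]

/-- derivative of the radial map in the annulus -/
noncomputable def DR (al be : ℝ) (x : E2) : E2 →L[ℝ] E2 :=
  ((EuclideanSpace.equiv (Fin 2) ℝ).symm : (Fin 2 → ℝ) →L[ℝ] E2).comp
  (ContinuousLinearMap.pi (fun i : Fin 2 => if i = 0 then
      (al + be * x 1 ^ 2 / √(x 0 ^ 2 + x 1 ^ 2) ^ 3) • (EuclideanSpace.proj 0 : E2 →L[ℝ] ℝ) -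
      (be * x 0 * x 1 / √(x 0 ^ 2 + x 1 ^ 2) ^ 3) • (EuclideanSpace.proj 1 : E2 →L[ℝ] ℝ)
    else
      (al + be * x 0 ^ 2 / √(x 0 ^ 2 + x 1 ^ 2) ^ 3) • (EuclideanSpace.proj 1 : E2 →L[ℝ] ℝ) -
      (be * x 0 * x 1 / √(x 0 ^ 2 + x 1 ^ 2) ^ 3) • (EuclideanSpace.proj 0 : E2 →L[ℝ] ℝ)))

lemma DR0 (al be : ℝ) (x v : E2) : DR al be x v 0 =
    (al + be * x 1 ^ 2 / √(x 0 ^ 2 + x 1 ^ 2) ^ 3) * v 0 -
      (be * x 0 * x 1 / √(x 0 ^ 2 + x 1 ^ 2) ^ 3) * v 1 := by simp [DR]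
lemma DR1 (al be : ℝ) (x v : E2) : DR al be x v 1 =
    (al + be * x 0 ^ 2 / √(x 0 ^ 2 + x 1 ^ 2) ^ 3) * v 1 -
      (be * x 0 * x 1 / √(x 0 ^ 2 + x 1 ^ 2) ^ 3) * v 0 := by simp [DR]

lemma norm_E2 (x : E2) : ‖x‖ = √(x 0 ^ 2 + x 1 ^ 2) := by
  rw [EuclideanSpace.norm_eq, Fin.sum_univ_two]
  simp

lemma hasFDerivAt_rad (al be : ℝ) {x : E2} (hx : x ≠ 0) :
    HasFDerivAt (fun y : E2 => (al + be / ‖y‖) • y) (DR al be x) x := by
  have hp : ∀ i : Fin 2, HasFDerivAt (fun y : E2 => y i) (EuclideanSpace.proj i : E2 →L[ℝ] ℝ) x :=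
    fun i => (EuclideanSpace.proj i : E2 →L[ℝ] ℝ).hasFDerivAt
  have hn := norm_E2 x
  have hn0 : 0 < ‖x‖ := norm_pos_iff.2 hx
  have hr0 : √(x 0 ^ 2 + x 1 ^ 2) ≠ 0 := by rw [← hn]; exact hn0.ne'
  have hpos : 0 < x 0 ^ 2 + x 1 ^ 2 := by
    by_contra h
    push Not at h
    rw [Real.sqrt_eq_zero_of_nonpos h] at hr0
    exact hr0 rfl
  have hrsq : √(x 0 ^ 2 + x 1 ^ 2) ^ 2 = x 0 ^ 2 + x 1 ^ 2 := Real.sq_sqrt hpos.le
  have hr : HasFDerivAt (fun y : E2 => √(y 0 ^ 2 + y 1 ^ 2)) _ x :=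
    (((hp 0).pow 2).add ((hp 1).pow 2)).sqrt hpos.ne'
  have hri : HasFDerivAt (fun y : E2 => al + be * (√(y 0 ^ 2 + y 1 ^ 2))⁻¹) _ x :=
    (((hasDerivAt_inv hr0).comp_hasFDerivAt x hr).const_mul be).const_add al
  rw [← hasFDerivWithinAt_univ, hasFDerivWithinAt_euclidean]
  intro i
  rw [hasFDerivWithinAt_univ]
  fin_cases i
  · have e : (fun y : E2 => ((al + be / ‖y‖) • y) 0) =
        fun y => (al + be * (√(y 0 ^ 2 + y 1 ^ 2))⁻¹) * y 0 := by
      funext y; rw [← norm_E2, div_eq_mul_inv]; simp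
    change HasFDerivAt (fun y : E2 => ((al + be / ‖y‖) • y) 0) _ x
    rw [e]
    refine (hri.mul (hp 0)).congr_fderiv ?_
    ext v
    simp [DR]
    set r := √(x 0 ^ 2 + x 1 ^ 2)
    have : x 1 ^ 2 = r ^ 2 - x 0 ^ 2 := by rw [hrsq]; ring
    field_simp
    rw [this]
    ring
  · have e : (fun y : E2 => ((al + be / ‖y‖) • y) 1) =
        fun y => (al + be * (√(y 0 ^ 2 + y 1 ^ 2))⁻¹) * y 1 := by
      funext y; rw [← norm_E2, div_eq_mul_inv]; simp
    change HasFDerivAt (fun y : E2 => ((al + be / ‖y‖) • y) 1) _ x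
    rw [e]
    refine (hri.mul (hp 1)).congr_fderiv ?_
    ext v
    simp [DR]
    set r := √(x 0 ^ 2 + x 1 ^ 2)
    have : x 0 ^ 2 = r ^ 2 - x 1 ^ 2 := by rw [hrsq]; ring
    field_simp
    rw [this]
    ring

lemma det_DR (al be : ℝ) {x : E2} (hx : x ≠ 0) : (DR al be x).det = al * (al + be / ‖x‖) := by
  have hn := norm_E2 x
  have hn0 : 0 < ‖x‖ := norm_pos_iff.2 hx
  have hr0 : √(x 0 ^ 2 + x 1 ^ 2) ≠ 0 := by rw [← hn]; exact hn0.ne'
  have hpos : 0 < x 0 ^ 2 + x 1 ^ 2 := by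
    by_contra h
    push Not at h
    rw [Real.sqrt_eq_zero_of_nonpos h] at hr0
    exact hr0 rfl
  have hrsq : √(x 0 ^ 2 + x 1 ^ 2) ^ 2 = x 0 ^ 2 + x 1 ^ 2 := Real.sq_sqrt hpos.le
  rw [ContinuousLinearMap.det, ← LinearMap.det_toMatrix (EuclideanSpace.basisFun (Fin 2) ℝ).toBasis,
    Matrix.det_fin_two]
  simp only [LinearMap.toMatrix_apply, OrthonormalBasis.coe_toBasis, OrthonormalBasis.coe_toBasis_repr_apply,
      EuclideanSpace.basisFun_repr, EuclideanSpace.basisFun_apply, ContinuousLinearMap.coe_coe]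
  rw [DR0, DR0, DR1, DR1, hn]
  simp
  set r := √(x 0 ^ 2 + x 1 ^ 2)
  have : x 1 ^ 2 = r ^ 2 - x 0 ^ 2 := by rw [hrsq]; ring
  have h2 : x 1 ^ 2 * x 1 ^ 2 = (r ^ 2 - x 0 ^ 2) * x 1 ^ 2 := by rw [this]
  field_simp
  rw [this]
  ring

lemma good_Rd {a b : ℝ} (ha : Ok a) (hb : Ok b) {v : E2} (h1 : ‖v‖ ≠ a) (h2 : ‖v‖ ≠ 1 / 2) :
    Good (Rd a b) v := by
  have hlip : ‖fderiv ℝ (Rd a b) v‖ ≤ 48 := by
    have : LipschitzWith 48 (Rd a b) := by
      apply LipschitzWith.of_dist_le_mul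
      intro x y
      rw [dist_eq_norm, dist_eq_norm]
      exact Rd_lip ha hb x y
    exact norm_fderiv_le_of_lipschitz ℝ this
  rcases lt_or_gt_of_ne h1 with h | h
  · have h0 : a ≠ 0 := by linarith [ha.1]
    have : Good (fun y : E2 => (0 : E2) + b • (fun z => z) (a⁻¹ • (y - 0))) v := Good.affine (good_id _)
    refine this.congr ?_
    filter_upwards [(isOpen_lt continuous_norm continuous_const).mem_nhds h] with y hy
    rw [Rd_small (le_of_lt hy)]
    simp only [zero_add, sub_zero]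
    rw [smul_smul, div_eq_mul_inv]
  rcases lt_or_gt_of_ne h2 with h' | h'
  · have hv : v ≠ 0 := by
      rw [← norm_pos_iff]; linarith [ha.1]
    set al := (1 / 2 - b) / (1 / 2 - a) with hal
    set be := b - al * a with hbe
    have hev : Rd a b =ᶠ[𝓝 v] fun y => (al + be / ‖y‖) • y := by
      filter_upwards [(isOpen_lt continuous_norm continuous_const).mem_nhds h',
        (isOpen_lt continuous_const continuous_norm).mem_nhds h] with y hy1 hy2
      have hy0 : ‖y‖ ≠ 0 := by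
        have : a < ‖y‖ := hy2
        linarith [ha.1]
      unfold Rd
      rw [rho_mid hy2 (le_of_lt hy1), ← hal]
      congr 1
      field_simp
      rw [hbe]; ring
    have hd := (hasFDerivAt_rad al be hv).congr_of_eventuallyEq hev
    refine ⟨hd.differentiableAt, ?_⟩
    rw [hd.fderiv] at hlip ⊢
    rw [det_DR al be hv]
    have hab := alpha_bounds ha hb
    rw [← hal] at hab
    have hn0 : 0 < ‖v‖ := norm_pos_iff.2 hv
    have h5 : 1 / 32 ≤ al + be / ‖v‖ := by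
      have h6 : al + be / ‖v‖ = (b + al * (‖v‖ - a)) / ‖v‖ := by
        rw [hbe]; field_simp; ring
      rw [h6, le_div_iff₀ hn0]
      nlinarith [hb.1, hab.1]
    have h7 : ‖DR al be v‖ ^ 2 ≤ 48 ^ 2 := by gcongr
    have h8 : 1 / 64 ≤ al * (al + be / ‖v‖) := by nlinarith [hab.1]
    unfold KK
    nlinarith
  · refine (good_id v).congr ?_
    filter_upwards [(isOpen_lt continuous_const continuous_norm).mem_nhds h'] with y hy
    exact Rd_big ha (le_of_lt hy)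

/-- Lipschitz gluing across a sphere -/
lemma glue {f : E2 → E2} {c : E2} {r K : ℝ} {T : Set E2}
    (hB : ∀ x, ‖x - c‖ ≤ r → ∀ y, ‖y - c‖ ≤ r → ‖f x - f y‖ ≤ K * ‖x - y‖)
    (hT : ∀ x ∈ T, ∀ y ∈ T, ‖f x - f y‖ ≤ K * ‖x - y‖)
    (hTc : ∀ y ∈ T, r ≤ ‖y - c‖) (hS : ∀ z, ‖z - c‖ = r → z ∈ T) :
    ∀ x, (‖x - c‖ ≤ r ∨ x ∈ T) → ∀ y, (‖y - c‖ ≤ r ∨ y ∈ T) → ‖f x - f y‖ ≤ K * ‖x - y‖ := by
  have key : ∀ x, ‖x - c‖ ≤ r → ∀ y ∈ T, ‖f x - f y‖ ≤ K * ‖x - y‖ := by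
    intro x hx y hy
    have hcont : ContinuousOn (fun t : ℝ => ‖x + t • (y - x) - c‖) (Icc 0 1) := by fun_prop
    have hiv := intermediate_value_Icc (zero_le_one' ℝ) hcont
    obtain ⟨t, ht, htr⟩ := hiv (show r ∈ Icc _ _ by
      constructor
      · simpa using hx
      · simpa using hTc y hy)
    simp only at htr
    set z := x + t • (y - x) with hz
    have h1 := hB x hx z htr.le
    have h2 := hT z (hS z htr) y hy
    have e1 : ‖x - z‖ = t * ‖x - y‖ := by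
      have : x - z = t • (x - y) := by rw [hz, smul_sub, smul_sub]; abel
      rw [this, norm_smul, Real.norm_eq_abs, abs_of_nonneg ht.1]
    have e2 : ‖z - y‖ = (1 - t) * ‖x - y‖ := by
      have : z - y = (1 - t) • (x - y) := by rw [hz, sub_smul, one_smul, smul_sub, smul_sub]; abel
      rw [this, norm_smul, Real.norm_eq_abs, abs_of_nonneg (by linarith [ht.2])]
    have h3 : ‖f x - f y‖ ≤ ‖f x - f z‖ + ‖f z - f y‖ := norm_sub_le_norm_sub_add_norm_sub _ _ _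
    rw [e1] at h1
    rw [e2] at h2
    linarith
  intro x hx y hy
  rcases hx with hx | hx
  · rcases hy with hy | hy
    · exact hB x hx y hy
    · exact key x hx y hy
  · rcases hy with hy | hy
    · rw [norm_sub_rev, norm_sub_rev x y]; exact key y hy x hx
    · exact hT x hx y hy

/-- the two centres -/
noncomputable def cp : E2 := EuclideanSpace.single 0 (1 / 2)
noncomputable def cm : E2 := EuclideanSpace.single 0 (-(1 / 2))

lemma norm_cp : ‖cp‖ = 1 / 2 := by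
  rw [norm_E2]; simp [cp]
lemma norm_cm : ‖cm‖ = 1 / 2 := by
  rw [norm_E2]; simp [cm]
lemma dist_cp_cm : ‖cp - cm‖ = 1 := by
  rw [norm_E2]; simp [cp, cm]; norm_num

lemma far_m {x : E2} : 1 ≤ ‖x - cp‖ + ‖x - cm‖ := by
  have h : cp - cm = (x - cm) - (x - cp) := by abel
  have := norm_sub_le (x - cm) (x - cp)
  rw [← h, dist_cp_cm] at this
  linarith

/-- the level map -/
noncomputable def Hm (a b : ℝ) (x : E2) : E2 :=
  if ‖x - cp‖ < 1 / 2 then cp + Rd a b (x - cp)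
  else if ‖x - cm‖ < 1 / 2 then cm + Rd a b (x - cm) else x

/-- the step operator -/
noncomputable def Step (a b : ℝ) (g : E2 → E2) (x : E2) : E2 :=
  if ‖x - cp‖ ≤ a then cp + b • g (a⁻¹ • (x - cp))
  else if ‖x - cm‖ ≤ a then cm + b • g (a⁻¹ • (x - cm)) else Hm a b x

lemma Hm_p {a b : ℝ} (ha : Ok a) {x : E2} (h : ‖x - cp‖ ≤ 1 / 2) : Hm a b x = cp + Rd a b (x - cp) := by
  unfold Hm
  split_ifs with h1 h2
  · rfl
  · have h3 := far_m (x := x)
    linarith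
  · rw [Rd_big ha (not_lt.1 h1)]; abel

lemma Hm_m {a b : ℝ} (ha : Ok a) {x : E2} (h : ‖x - cm‖ ≤ 1 / 2) : Hm a b x = cm + Rd a b (x - cm) := by
  unfold Hm
  split_ifs with h1 h2
  · have h3 := far_m (x := x)
    linarith
  · rfl
  · rw [Rd_big ha (not_lt.1 h2)]; abel

lemma Hm_out {a b : ℝ} {x : E2} (h : 1 / 2 ≤ ‖x - cp‖) (h' : 1 / 2 ≤ ‖x - cm‖) : Hm a b x = x := by
  unfold Hm
  rw [if_neg (not_lt.2 h), if_neg (not_lt.2 h')]

lemma Hm_lip {a b : ℝ} (ha : Ok a) (hb : Ok b) (x y : E2) : ‖Hm a b x - Hm a b y‖ ≤ 48 * ‖x - y‖ := by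
  have h1 := glue (f := Hm a b) (c := cp) (r := 1 / 2) (K := 48)
    (T := {x | 1 / 2 ≤ ‖x - cp‖ ∧ 1 / 2 ≤ ‖x - cm‖})
    (by
      intro x hx y hy
      rw [Hm_p ha hx, Hm_p ha hy, add_sub_add_left_eq_sub]
      refine (Rd_lip ha hb _ _).trans ?_
      rw [sub_sub_sub_cancel_right])
    (by
      rintro x ⟨hx, hx'⟩ y ⟨hy, hy'⟩
      rw [Hm_out hx hx', Hm_out hy hy']
      nlinarith [norm_nonneg (x - y)])
    (by rintro y ⟨hy, _⟩; exact hy)
    (by
      intro z hz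
      refine ⟨hz.ge, ?_⟩
      have := far_m (x := z)
      linarith)
  have h2 := glue (f := Hm a b) (c := cm) (r := 1 / 2) (K := 48)
    (T := {x | 1 / 2 ≤ ‖x - cm‖})
    (by
      intro x hx y hy
      rw [Hm_m ha hx, Hm_m ha hy, add_sub_add_left_eq_sub]
      refine (Rd_lip ha hb _ _).trans ?_
      rw [sub_sub_sub_cancel_right])
    (by
      intro x hx y hy
      refine h1 x ?_ y ?_
      · rcases le_total ‖x - cp‖ (1 / 2) with h | h
        · exact Or.inl h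
        · exact Or.inr ⟨h, hx⟩
      · rcases le_total ‖y - cp‖ (1 / 2) with h | h
        · exact Or.inl h
        · exact Or.inr ⟨h, hy⟩)
    (fun y hy => hy)
    (fun z hz => hz.ge)
  exact h2 x (le_total _ _) y (le_total _ _)

lemma Step_p {a b : ℝ} {g : E2 → E2} {x : E2} (h : ‖x - cp‖ ≤ a) :
    Step a b g x = cp + b • g (a⁻¹ • (x - cp)) := by
  unfold Step; rw [if_pos h]

lemma Step_m {a b : ℝ} (ha : Ok a) {g : E2 → E2} {x : E2} (h : ‖x - cm‖ ≤ a) :
    Step a b g x = cm + b • g (a⁻¹ • (x - cm)) := by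
  unfold Step
  rw [if_neg, if_pos h]
  have := far_m (x := x)
  linarith [ha.2]

lemma norm_scale {a : ℝ} (ha : Ok a) (v : E2) : ‖a⁻¹ • v‖ = ‖v‖ / a := by
  rw [norm_smul, norm_inv, Real.norm_eq_abs, abs_of_pos (by linarith [ha.1]), div_eq_inv_mul]

lemma Step_out {a b : ℝ} (ha : Ok a) {g : E2 → E2} (hg : ∀ y, ‖y‖ = 1 → g y = y) {x : E2}
    (h : a ≤ ‖x - cp‖) (h' : a ≤ ‖x - cm‖) : Step a b g x = Hm a b x := by
  have a0 : a ≠ 0 := by linarith [ha.1]
  unfold Step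
  split_ifs with h1 h2
  · have e : ‖x - cp‖ = a := le_antisymm h1 h
    rw [hg _ (by rw [norm_scale ha, e, div_self a0]), Hm_p ha (by linarith [ha.2]), Rd_small h1,
      smul_smul, div_eq_mul_inv]
  · have e : ‖x - cm‖ = a := le_antisymm h2 h'
    rw [hg _ (by rw [norm_scale ha, e, div_self a0]), Hm_m ha (by linarith [ha.2]), Rd_small h2,
      smul_smul, div_eq_mul_inv]
  · rfl

lemma Step_lip {a b : ℝ} (ha : Ok a) (hb : Ok b) {g : E2 → E2} (hg : ∀ y, ‖y‖ = 1 → g y = y)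
    {c : ℝ} (hc0 : 0 ≤ c) (hc1 : c ≤ 1)
    (hgl : ∀ y y', c * (b / a) * ‖g y - g y'‖ ≤ 48 * ‖y - y'‖) (x y : E2) :
    c * ‖Step a b g x - Step a b g y‖ ≤ 48 * ‖x - y‖ := by
  have a0 : 0 < a := by linarith [ha.1]
  have b0 : 0 < b := by linarith [hb.1]
  have hsc : ∀ u v : E2, ‖c • u - c • v‖ = c * ‖u - v‖ := by
    intro u v; rw [← smul_sub, norm_smul, Real.norm_eq_abs, abs_of_nonneg hc0]
  have hin : ∀ (d x y : E2), ‖c • (d + b • g (a⁻¹ • (x - d))) - c • (d + b • g (a⁻¹ • (y - d)))‖ ≤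
      48 * ‖x - y‖ := by
    intro d x y
    rw [hsc, add_sub_add_left_eq_sub, ← smul_sub, norm_smul, Real.norm_eq_abs, abs_of_pos b0]
    have := hgl (a⁻¹ • (x - d)) (a⁻¹ • (y - d))
    have e : ‖a⁻¹ • (x - d) - a⁻¹ • (y - d)‖ = ‖x - y‖ / a := by
      rw [← smul_sub, sub_sub_sub_cancel_right, norm_scale ha]
    rw [e] at this
    have h2 : c * (b * ‖g (a⁻¹ • (x - d)) - g (a⁻¹ • (y - d))‖) =
        a * (c * (b / a) * ‖g (a⁻¹ • (x - d)) - g (a⁻¹ • (y - d))‖) := by field_simp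
    rw [h2]
    calc a * (c * (b / a) * ‖g (a⁻¹ • (x - d)) - g (a⁻¹ • (y - d))‖) ≤ a * (48 * (‖x - y‖ / a)) := by
          gcongr
      _ = 48 * ‖x - y‖ := by field_simp
  have h1 := glue (f := fun x => c • Step a b g x) (c := cp) (r := a) (K := 48)
    (T := {x | a ≤ ‖x - cp‖ ∧ a ≤ ‖x - cm‖})
    (by
      intro x hx y hy
      rw [Step_p hx, Step_p hy]
      exact hin cp x y)
    (by
      rintro x ⟨hx, hx'⟩ y ⟨hy, hy'⟩
      rw [Step_out ha hg hx hx', Step_out ha hg hy hy', hsc]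
      have := Hm_lip ha hb x y
      nlinarith [norm_nonneg (Hm a b x - Hm a b y)])
    (by rintro y ⟨hy, _⟩; exact hy)
    (by
      intro z hz
      refine ⟨hz.ge, ?_⟩
      have := far_m (x := z)
      linarith [ha.2])
  have h2 := glue (f := fun x => c • Step a b g x) (c := cm) (r := a) (K := 48)
    (T := {x | a ≤ ‖x - cm‖})
    (by
      intro x hx y hy
      rw [Step_m ha hx, Step_m ha hy]
      exact hin cm x y)
    (by
      intro x hx y hy
      refine h1 x ?_ y ?_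
      · rcases le_total ‖x - cp‖ a with h | h
        · exact Or.inl h
        · exact Or.inr ⟨h, hx⟩
      · rcases le_total ‖y - cp‖ a with h | h
        · exact Or.inl h
        · exact Or.inr ⟨h, hy⟩)
    (fun y hy => hy)
    (fun z hz => hz.ge)
  have := h2 x (le_total _ _) y (le_total _ _)
  rwa [hsc] at this

lemma Hm_norm_le {a b : ℝ} (ha : Ok a) (hb : Ok b) {x : E2} (hx : ‖x‖ ≤ 1) : ‖Hm a b x‖ ≤ 1 := by
  unfold Hm
  split_ifs with h1 h2
  · have h3 := norm_add_le cp (Rd a b (x - cp))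
    rw [norm_cp, norm_Rd ha hb] at h3
    linarith [rho_lt_half ha hb h1]
  · have h3 := norm_add_le cm (Rd a b (x - cm))
    rw [norm_cm, norm_Rd ha hb] at h3
    linarith [rho_lt_half ha hb h2]
  · exact hx

lemma Step_norm_le {a b : ℝ} (ha : Ok a) (hb : Ok b) {g : E2 → E2} (hg : ∀ y, ‖y‖ ≤ 1 → ‖g y‖ ≤ 1)
    {x : E2} (hx : ‖x‖ ≤ 1) : ‖Step a b g x‖ ≤ 1 := by
  have a0 : 0 < a := by linarith [ha.1]
  have b0 : 0 < b := by linarith [hb.1]
  have hin : ∀ d : E2, ‖d‖ = 1 / 2 → ‖x - d‖ ≤ a → ‖d + b • g (a⁻¹ • (x - d))‖ ≤ 1 := by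
    intro d hd h
    have h1 : ‖g (a⁻¹ • (x - d))‖ ≤ 1 := by
      apply hg
      rw [norm_scale ha, div_le_one a0]; exact h
    have h2 := norm_add_le d (b • g (a⁻¹ • (x - d)))
    rw [norm_smul, Real.norm_eq_abs, abs_of_pos b0, hd] at h2
    nlinarith [hb.2]
  unfold Step
  split_ifs with h1 h2
  · exact hin cp norm_cp h1
  · exact hin cm norm_cm h2
  · exact Hm_norm_le ha hb hx

lemma Step_id {a b : ℝ} (ha : Ok a) {g : E2 → E2} {x : E2} (hx : 1 ≤ ‖x‖) : Step a b g x = x := by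
  have h1 : 1 / 2 ≤ ‖x - cp‖ := by
    have := norm_sub_norm_le x cp
    rw [norm_cp] at this; linarith
  have h2 : 1 / 2 ≤ ‖x - cm‖ := by
    have := norm_sub_norm_le x cm
    rw [norm_cm] at this; linarith
  unfold Step
  rw [if_neg (by linarith [ha.2]), if_neg (by linarith [ha.2]), Hm_out h1 h2]

/-- approximate inverse property propagates -/
lemma Step_inv {a b : ℝ} (ha : Ok a) (hb : Ok b) {g g' : E2 → E2} {ε : ℝ} (hε : 0 ≤ ε)
    (hg : ∀ y, ‖y‖ ≤ 1 → ‖g y‖ ≤ 1) (hgg : ∀ y, ‖y‖ ≤ 1 → ‖g' (g y) - y‖ ≤ ε) (x : E2) :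
    ‖Step b a g' (Step a b g x) - x‖ ≤ a * ε := by
  have a0 : 0 < a := by linarith [ha.1]
  have b0 : 0 < b := by linarith [hb.1]
  have hin : ∀ d : E2, ‖x - d‖ ≤ a → ‖b • g (a⁻¹ • (x - d))‖ ≤ b ∧
      ‖a • g' (b⁻¹ • (b • g (a⁻¹ • (x - d)))) - (x - d)‖ ≤ a * ε := by
    intro d h
    have h0 : ‖a⁻¹ • (x - d)‖ ≤ 1 := by rw [norm_scale ha, div_le_one a0]; exact h
    refine ⟨?_, ?_⟩
    · rw [norm_smul, Real.norm_eq_abs, abs_of_pos b0]
      have := hg _ h0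
      nlinarith
    · rw [inv_smul_smul₀ b0.ne']
      have e : a • g' (g (a⁻¹ • (x - d))) - (x - d) =
          a • (g' (g (a⁻¹ • (x - d))) - a⁻¹ • (x - d)) := by
        rw [smul_sub a (g' (g (a⁻¹ • (x - d)))) (a⁻¹ • (x - d)), smul_inv_smul₀ a0.ne']
      rw [e, norm_smul, Real.norm_eq_abs, abs_of_pos a0]
      have := hgg _ h0
      gcongr
  by_cases h1 : ‖x - cp‖ ≤ a
  · rw [Step_p h1]
    obtain ⟨h3, h4⟩ := hin cp h1
    rw [Step_p (by rwa [add_sub_cancel_left]), add_sub_cancel_left]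
    have : cp + a • g' (b⁻¹ • (b • g (a⁻¹ • (x - cp)))) - x =
      a • g' (b⁻¹ • (b • g (a⁻¹ • (x - cp)))) - (x - cp) := by abel
    rw [this]; exact h4
  by_cases h2 : ‖x - cm‖ ≤ a
  · rw [Step_m ha h2]
    obtain ⟨h3, h4⟩ := hin cm h2
    rw [Step_m hb (by rwa [add_sub_cancel_left]), add_sub_cancel_left]
    have : cm + a • g' (b⁻¹ • (b • g (a⁻¹ • (x - cm)))) - x =
      a • g' (b⁻¹ • (b • g (a⁻¹ • (x - cm)))) - (x - cm) := by abel
    rw [this]; exact h4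
  push Not at h1 h2
  have hz : Step a b g x = Hm a b x := by
    unfold Step; rw [if_neg (not_le.2 h1), if_neg (not_le.2 h2)]
  rw [hz]
  have hres : Step b a g' (Hm a b x) = x := by
    by_cases h3 : ‖x - cp‖ < 1 / 2
    · have e : Hm a b x = cp + Rd a b (x - cp) := Hm_p ha h3.le
      have e2 : ‖Hm a b x - cp‖ = rho a b ‖x - cp‖ := by
        rw [e, add_sub_cancel_left, norm_Rd ha hb]
      have h5 := b_lt_rho ha hb h1
      have h6 := rho_lt_half ha hb h3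
      have h7 := far_m (x := Hm a b x)
      unfold Step
      rw [if_neg (by rw [e2]; linarith), if_neg (by rw [e2] at h7; linarith [hb.2]),
        Hm_p hb (by rw [e2]; linarith), e, add_sub_cancel_left, Rd_inv ha hb]
      abel
    · by_cases h4 : ‖x - cm‖ < 1 / 2
      · have e : Hm a b x = cm + Rd a b (x - cm) := Hm_m ha h4.le
        have e2 : ‖Hm a b x - cm‖ = rho a b ‖x - cm‖ := by
          rw [e, add_sub_cancel_left, norm_Rd ha hb]
        have h5 := b_lt_rho ha hb h2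
        have h6 := rho_lt_half ha hb h4
        have h7 := far_m (x := Hm a b x)
        unfold Step
        rw [if_neg (by rw [e2] at h7; linarith [hb.2]), if_neg (by rw [e2]; linarith),
          Hm_m hb (by rw [e2]; linarith), e, add_sub_cancel_left, Rd_inv ha hb]
        abel
      · push Not at h3 h4
        rw [Hm_out h3 h4]
        unfold Step
        rw [if_neg (by linarith [hb.2]), if_neg (by linarith [hb.2]), Hm_out h3 h4]
  rw [hres, sub_self, norm_zero]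
  positivity

/-- distortion of the step -/
lemma Step_good {a b : ℝ} (ha : Ok a) (hb : Ok b) {g : E2 → E2} {x : E2}
    (h1 : ‖x - cp‖ ≠ a) (h2 : ‖x - cm‖ ≠ a) (h3 : ‖x - cp‖ ≠ 1 / 2) (h4 : ‖x - cm‖ ≠ 1 / 2)
    (hp : ‖x - cp‖ < a → Good g (a⁻¹ • (x - cp))) (hm : ‖x - cm‖ < a → Good g (a⁻¹ • (x - cm))) :
    Good (Step a b g) x := by
  have cnp : Continuous fun y : E2 => ‖y - cp‖ := by fun_prop
  have cnm : Continuous fun y : E2 => ‖y - cm‖ := by fun_prop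
  rcases lt_or_gt_of_ne h1 with h | h
  · refine (Good.affine (d := cp) (b := b) (hp h)).congr ?_
    filter_upwards [(isOpen_lt cnp continuous_const).mem_nhds h] with y hy
    exact Step_p (le_of_lt hy)
  rcases lt_or_gt_of_ne h2 with h' | h'
  · refine (Good.affine (d := cm) (b := b) (hm h')).congr ?_
    filter_upwards [(isOpen_lt cnm continuous_const).mem_nhds h'] with y hy
    exact Step_m ha (le_of_lt hy)
  have hev : Step a b g =ᶠ[𝓝 x] Hm a b := by
    filter_upwards [(isOpen_lt continuous_const cnp).mem_nhds h,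
      (isOpen_lt continuous_const cnm).mem_nhds h'] with y hy hy'
    unfold Step
    rw [if_neg (not_le.2 hy), if_neg (not_le.2 hy')]
  refine Good.congr ?_ hev
  have hR : ∀ d : E2, ‖x - d‖ ≠ a → ‖x - d‖ ≠ 1 / 2 → Good (fun y => d + Rd a b (y - d)) x := by
    intro d hd hd'
    have : Good (Rd a b) ((1 : ℝ)⁻¹ • (x - d)) := by
      rw [inv_one, one_smul]; exact good_Rd ha hb hd hd'
    have := Good.affine (d := d) (b := 1) this
    simpa using this
  rcases lt_or_gt_of_ne h3 with h5 | h5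
  · refine (hR cp h1 h3).congr ?_
    filter_upwards [(isOpen_lt cnp continuous_const).mem_nhds h5] with y hy
    exact Hm_p ha (le_of_lt hy)
  rcases lt_or_gt_of_ne h4 with h6 | h6
  · refine (hR cm h2 h4).congr ?_
    filter_upwards [(isOpen_lt cnm continuous_const).mem_nhds h6] with y hy
    exact Hm_m ha (le_of_lt hy)
  refine (good_id x).congr ?_
  filter_upwards [(isOpen_lt continuous_const cnp).mem_nhds h5,
    (isOpen_lt continuous_const cnm).mem_nhds h6] with y hy hy'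
  exact Hm_out (le_of_lt hy) (le_of_lt hy')

end Pool.Agent.V1190.Nag
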