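import Mathlib
import Pool.Agent.V1190.Nag.Step

set_option autoImplicit false

open MeasureTheory Set Metric Filter
open scoped ENNReal NNReal Topology Pointwise

/-!
The infinite Moran-type quasiconformal map.
-/

namespace Pool.Agent.V1190.Nag

/-- sequences of pairs of ratios -/
abbrev PSeq := ℕ → ℝ × ℝ

/-- all ratios are admissible -/
def Adm (p : PSeq) : Prop := ∀ i, Ok (p i).1 ∧ Ok (p i).2

/-- shift -/
def sh {α : Type} (p : ℕ → α) : ℕ → α := fun i => p (i + 1)

lemma Adm.sh {p : PSeq} (h : Adm p) : Adm (sh p) := fun i => h (i + 1)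

/-- finite stages -/
noncomputable def Fk : ℕ → PSeq → E2 → E2
  | 0, _, x => x
  | k + 1, p, x => Step (p 0).1 (p 0).2 (Fk k (sh p)) x

lemma Fk_norm (k : ℕ) : ∀ (p : PSeq), Adm p → ∀ x, ‖x‖ ≤ 1 → ‖Fk k p x‖ ≤ 1 := by
  induction k with
  | zero => intro p _ x hx; exact hx
  | succ k ih =>
    intro p hp x hx
    exact Step_norm_le (hp 0).1 (hp 0).2 (ih (sh p) hp.sh) hx

lemma Fk_id (k : ℕ) (p : PSeq) (hp : Adm p) (x : E2) (hx : 1 ≤ ‖x‖) : Fk k p x = x := by
  cases k with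
  | zero => rfl
  | succ k => exact Step_id (hp 0).1 hx

lemma Step_sub {a b : ℝ} (hb : Ok b) {g g' : E2 → E2} {ε : ℝ} (hε : 0 ≤ ε)
    (h : ∀ y, ‖g y - g' y‖ ≤ ε) (x : E2) : ‖Step a b g x - Step a b g' x‖ ≤ b * ε := by
  have b0 : 0 < b := by linarith [hb.1]
  unfold Step
  split_ifs with h1 h2
  · rw [add_sub_add_left_eq_sub, ← smul_sub, norm_smul, Real.norm_eq_abs, abs_of_pos b0]
    gcongr; exact h _
  · rw [add_sub_add_left_eq_sub, ← smul_sub, norm_smul, Real.norm_eq_abs, abs_of_pos b0]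
    gcongr; exact h _
  · rw [sub_self, norm_zero]; positivity

lemma Fk_diff (k : ℕ) : ∀ (p : PSeq), Adm p → ∀ x, ‖Fk k p x - Fk (k + 1) p x‖ ≤ 2 * (1 / 4) ^ k := by
  induction k with
  | zero =>
    intro p hp x
    rcases le_total ‖x‖ 1 with h | h
    · have h1 := Fk_norm 1 p hp x h
      have h2 := norm_sub_le (Fk 0 p x) (Fk 1 p x)
      have h3 : ‖Fk 0 p x‖ ≤ 1 := h
      simp only [pow_zero, mul_one, zero_add]
      linarith
    · rw [Fk_id _ p hp x h, Fk_id _ p hp x h]; simp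
  | succ k ih =>
    intro p hp x
    have := Step_sub (a := (p 0).1) (hp 0).2 (by positivity) (ih (sh p) hp.sh) x
    refine this.trans ?_
    have h4 := (hp 0).2.2
    calc (p 0).2 * (2 * (1 / 4) ^ k) ≤ (1 / 4) * (2 * (1 / 4) ^ k) := by gcongr
      _ = 2 * (1 / 4) ^ (k + 1) := by ring

/-- the limit map -/
noncomputable def Fi (p : PSeq) (x : E2) : E2 := limUnder atTop (fun k => Fk k p x)

lemma tendsto_Fi {p : PSeq} (hp : Adm p) (x : E2) : Tendsto (fun k => Fk k p x) atTop (𝓝 (Fi p x)) := by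
  have : CauchySeq (fun k => Fk k p x) := by
    apply cauchySeq_of_le_geometric (1 / 4) 2 (by norm_num)
    intro k
    rw [dist_eq_norm]
    exact Fk_diff k p hp x
  exact this.tendsto_limUnder

lemma dist_Fi {p : PSeq} (hp : Adm p) (k : ℕ) (x : E2) : dist (Fk k p x) (Fi p x) ≤ 2 * (1 / 4) ^ k / (1 - 1 / 4) := by
  apply dist_le_of_le_geometric_of_tendsto (1 / 4) 2 (by norm_num) _ (tendsto_Fi hp x)
  intro k
  rw [dist_eq_norm]
  exact Fk_diff k p hp x

lemma Fi_norm {p : PSeq} (hp : Adm p) {x : E2} (hx : ‖x‖ ≤ 1) : ‖Fi p x‖ ≤ 1 :=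
  le_of_tendsto (tendsto_Fi hp x).norm (Eventually.of_forall fun k => Fk_norm k p hp x hx)

lemma Fi_id {p : PSeq} (hp : Adm p) {x : E2} (hx : 1 ≤ ‖x‖) : Fi p x = x := by
  refine tendsto_nhds_unique (tendsto_Fi hp x) ?_
  have : (fun k => Fk k p x) = fun _ => x := by funext k; exact Fk_id k p hp x hx
  rw [this]; exact tendsto_const_nhds

lemma Fi_step {p : PSeq} (hp : Adm p) (x : E2) :
    Fi p x = Step (p 0).1 (p 0).2 (Fi (sh p)) x := by
  have h1 : Tendsto (fun k => Fk (k + 1) p x) atTop (𝓝 (Fi p x)) :=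
    (tendsto_Fi hp x).comp (tendsto_add_atTop_nat 1)
  refine tendsto_nhds_unique h1 ?_
  have h2 : ∀ y, Tendsto (fun k => Fk k (sh p) y) atTop (𝓝 (Fi (sh p) y)) := tendsto_Fi hp.sh
  simp only [Fk]
  unfold Step
  split_ifs with h3 h4
  · exact ((h2 _).const_smul _).const_add _
  · exact ((h2 _).const_smul _).const_add _
  · exact tendsto_const_nhds

lemma Fk_lip (k : ℕ) : ∀ (p : PSeq), Adm p → ∀ c : ℝ, 0 ≤ c →
    (∀ m ≤ k, c * ∏ i ∈ Finset.range m, ((p i).2 / (p i).1) ≤ 1) →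
    ∀ x y, c * ‖Fk k p x - Fk k p y‖ ≤ 48 * ‖x - y‖ := by
  induction k with
  | zero =>
    intro p hp c hc h x y
    have := h 0 le_rfl
    simp only [Finset.range_zero, Finset.prod_empty, mul_one] at this
    simp only [Fk]
    nlinarith [norm_nonneg (x - y)]
  | succ k ih =>
    intro p hp c hc h x y
    have hc1 := h 0 (Nat.zero_le _)
    simp only [Finset.range_zero, Finset.prod_empty, mul_one] at hc1
    have hq := (ratio_bounds (hp 0).1 (hp 0).2).1
    refine Step_lip (hp 0).1 (hp 0).2 (fun y hy => Fk_id k (sh p) hp.sh y hy.ge) hc hc1 ?_ x y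
    intro y y'
    refine ih (sh p) hp.sh _ (by positivity) ?_ y y'
    intro m hm
    have h2 := h (m + 1) (by omega)
    rw [Finset.prod_range_succ'] at h2
    simp only [sh]
    calc c * ((p 0).2 / (p 0).1) * ∏ i ∈ Finset.range m, ((p (i + 1)).2 / (p (i + 1)).1) =
        c * ((∏ i ∈ Finset.range m, ((p (i + 1)).2 / (p (i + 1)).1)) * ((p 0).2 / (p 0).1)) := by ring
      _ ≤ 1 := h2

lemma Fk_continuous (k : ℕ) {p : PSeq} (hp : Adm p) : Continuous (Fk k p) := by
  have h : ∀ m ≤ k, (1 / 16 : ℝ) ^ k * ∏ i ∈ Finset.range m, ((p i).2 / (p i).1) ≤ 1 := by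
    intro m hm
    have h1 : ∏ i ∈ Finset.range m, ((p i).2 / (p i).1) ≤ 16 ^ m := by
      calc ∏ i ∈ Finset.range m, ((p i).2 / (p i).1) ≤ ∏ _i ∈ Finset.range m, (16 : ℝ) := by
            apply Finset.prod_le_prod
            · intro i _
              have := (ratio_bounds (hp i).1 (hp i).2).1
              linarith
            · intro i _
              exact (ratio_bounds (hp i).1 (hp i).2).2
        _ = 16 ^ m := by simp
    have h2 : (16 : ℝ) ^ m ≤ 16 ^ k := pow_le_pow_right₀ (by norm_num) hm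
    calc (1 / 16 : ℝ) ^ k * ∏ i ∈ Finset.range m, ((p i).2 / (p i).1) ≤ (1 / 16 : ℝ) ^ k * 16 ^ k := by
          gcongr; linarith
      _ = 1 := by rw [← mul_pow]; norm_num
  have h3 := Fk_lip k p hp _ (by positivity) h
  have : LipschitzWith (48 * 16 ^ k) (Fk k p) := by
    apply LipschitzWith.of_dist_le_mul
    intro x y
    rw [dist_eq_norm, dist_eq_norm]
    have h4 := h3 x y
    have h5 : (0 : ℝ) < 16 ^ k := by positivity
    have h6 : ‖Fk k p x - Fk k p y‖ = 16 ^ k * ((1 / 16 : ℝ) ^ k * ‖Fk k p x - Fk k p y‖) := by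
      rw [← mul_assoc, ← mul_pow]; norm_num
    rw [h6]
    push_cast
    nlinarith
  exact this.continuous

lemma Fi_continuous {p : PSeq} (hp : Adm p) : Continuous (Fi p) := by
  have : TendstoUniformly (fun k => Fk k p) (Fi p) atTop := by
    rw [Metric.tendstoUniformly_iff]
    intro ε hε
    have h1 : Tendsto (fun k : ℕ => 2 * (1 / 4 : ℝ) ^ k / (1 - 1 / 4)) atTop (𝓝 0) := by
      have := ((tendsto_pow_atTop_nhds_zero_of_lt_one (by norm_num : (0 : ℝ) ≤ 1 / 4)
        (by norm_num)).const_mul 2).div_const (1 - 1 / 4 : ℝ)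
      simpa using this
    filter_upwards [h1.eventually (gt_mem_nhds hε)] with k hk x
    rw [dist_comm]
    exact (dist_Fi hp k x).trans_lt hk
  exact this.continuous (Frequently.of_forall fun k => Fk_continuous k hp)

lemma Fi_lip {p : PSeq} (hp : Adm p)
    (h : ∀ m, ∏ i ∈ Finset.range m, ((p i).2 / (p i).1) ≤ 1) : LipschitzWith 48 (Fi p) := by
  apply LipschitzWith.of_dist_le_mul
  intro x y
  rw [dist_eq_norm, dist_eq_norm]
  have h1 : Tendsto (fun k => ‖Fk k p x - Fk k p y‖) atTop (𝓝 ‖Fi p x - Fi p y‖) :=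
    ((tendsto_Fi hp x).sub (tendsto_Fi hp y)).norm
  refine le_of_tendsto h1 (Eventually.of_forall fun k => ?_)
  have := Fk_lip k p hp 1 zero_le_one (fun m _ => by rw [one_mul]; exact h m) x y
  simpa using this

/-- swapping the two sequences -/
def sw (p : PSeq) : PSeq := fun i => ((p i).2, (p i).1)

lemma Adm.sw {p : PSeq} (h : Adm p) : Adm (sw p) := fun i => ⟨(h i).2, (h i).1⟩

lemma Fi_inv_aux (k : ℕ) : ∀ p : PSeq, Adm p → ∀ x, ‖x‖ ≤ 1 →
    ‖Fi (sw p) (Fi p x) - x‖ ≤ 2 * (1 / 4) ^ k := by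
  induction k with
  | zero =>
    intro p hp x hx
    have h1 := Fi_norm hp.sw (Fi_norm hp hx)
    have h2 := norm_sub_le (Fi (sw p) (Fi p x)) x
    simp only [pow_zero, mul_one]
    linarith
  | succ k ih =>
    intro p hp x hx
    have h1 := Step_inv (hp 0).1 (hp 0).2 (g := Fi (sh p)) (g' := Fi (sh (sw p)))
      (ε := 2 * (1 / 4) ^ k) (by positivity) (fun y hy => Fi_norm hp.sh hy)
      (fun y hy => ih (sh p) hp.sh y hy) x
    rw [Fi_step hp, Fi_step hp.sw]
    refine h1.trans ?_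
    have := (hp 0).1.2
    calc (p 0).1 * (2 * (1 / 4) ^ k) ≤ (1 / 4) * (2 * (1 / 4) ^ k) := by gcongr
      _ = 2 * (1 / 4) ^ (k + 1) := by ring

lemma eq_of_geometric {x y : E2} (h : ∀ k : ℕ, ‖x - y‖ ≤ 2 * (1 / 4) ^ k) : x = y := by
  have h1 : Tendsto (fun k : ℕ => 2 * (1 / 4 : ℝ) ^ k) atTop (𝓝 0) := by
    have := ((tendsto_pow_atTop_nhds_zero_of_lt_one (by norm_num : (0 : ℝ) ≤ 1 / 4)
      (by norm_num)).const_mul 2)
    simpa using this
  have h2 : ‖x - y‖ ≤ 0 := ge_of_tendsto h1 (Eventually.of_forall h)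
  rw [← sub_eq_zero, ← norm_le_zero_iff]
  exact h2

lemma Fi_inv {p : PSeq} (hp : Adm p) (x : E2) : Fi (sw p) (Fi p x) = x := by
  rcases le_total ‖x‖ 1 with h | h
  · exact eq_of_geometric fun k => Fi_inv_aux k p hp x h
  · rw [Fi_id hp h, Fi_id hp.sw h]

/-- the map as a homeomorphism -/
noncomputable def homeo (p : PSeq) (hp : Adm p) : E2 ≃ₜ E2 where
  toFun := Fi p
  invFun := Fi (sw p)
  left_inv := Fi_inv hp
  right_inv := fun x => Fi_inv hp.sw x
  continuous_toFun := Fi_continuous hp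
  continuous_invFun := Fi_continuous hp.sw

/-- bad points -/
def Nb (p : PSeq) : Set E2 := {x | ‖x‖ < 1 ∧ ¬ Good (Fi p) x}

lemma volume_scaled {a : ℝ} (ha : Ok a) (d : E2) (N : Set E2) :
    volume {x : E2 | a⁻¹ • (x - d) ∈ N} ≤ ENNReal.ofReal (1 / 16) * volume N := by
  have a0 : 0 < a := by linarith [ha.1]
  have e : {x : E2 | a⁻¹ • (x - d) ∈ N} = (fun x => -d + x) ⁻¹' (a • N) := by
    ext x
    simp only [mem_ofPred_eq, mem_preimage]
    rw [Set.mem_smul_set_iff_inv_smul_mem₀ a0.ne', neg_add_eq_sub]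
  rw [e, measure_preimage_add, Measure.addHaar_smul]
  gcongr
  rw [finrank_euclideanSpace, Fintype.card_fin, abs_of_pos (by positivity)]
  nlinarith [ha.2]

lemma volume_Nb_step {p : PSeq} (hp : Adm p) : volume (Nb p) ≤ ENNReal.ofReal (1 / 8) * volume (Nb (sh p)) := by
  have a0 : 0 < (p 0).1 := by linarith [(hp 0).1.1]
  have hsub : Nb p ⊆ (sphere cp (p 0).1 ∪ sphere cm (p 0).1 ∪ sphere cp (1 / 2) ∪ sphere cm (1 / 2)) ∪
      ({x | (p 0).1⁻¹ • (x - cp) ∈ Nb (sh p)} ∪ {x | (p 0).1⁻¹ • (x - cm) ∈ Nb (sh p)}) := by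
    rintro x ⟨hx, hx'⟩
    by_contra hno
    simp only [mem_union, mem_sphere, dist_eq_norm, mem_ofPred_eq, not_or] at hno
    obtain ⟨⟨⟨⟨h1, h2⟩, h3⟩, h4⟩, h5, h6⟩ := hno
    apply hx'
    have : Fi p = Step (p 0).1 (p 0).2 (Fi (sh p)) := by funext y; exact Fi_step hp y
    rw [this]
    refine Step_good (hp 0).1 (hp 0).2 h1 h2 h3 h4 ?_ ?_
    · intro hlt
      by_contra hg
      exact h5 ⟨by rw [norm_scale (hp 0).1, div_lt_one a0]; exact hlt, hg⟩
    · intro hlt
      by_contra hg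
      exact h6 ⟨by rw [norm_scale (hp 0).1, div_lt_one a0]; exact hlt, hg⟩
  refine (measure_mono hsub).trans ((measure_union_le _ _).trans ?_)
  have hs : volume (sphere cp (p 0).1 ∪ sphere cm (p 0).1 ∪ sphere cp (1 / 2) ∪ sphere cm (1 / 2) : Set E2) = 0 := by
    simp only [measure_union_null_iff]
    refine ⟨⟨⟨?_, ?_⟩, ?_⟩, ?_⟩ <;> exact Measure.addHaar_sphere _ _ _
  rw [hs, zero_add]
  refine (measure_union_le _ _).trans ?_
  have h1 := volume_scaled (hp 0).1 cp (Nb (sh p))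
  have h2 := volume_scaled (hp 0).1 cm (Nb (sh p))
  refine (add_le_add h1 h2).trans ?_
  rw [← add_mul, ← ENNReal.ofReal_add (by norm_num) (by norm_num)]
  norm_num

lemma volume_Nb {p : PSeq} (hp : Adm p) : volume (Nb p) = 0 := by
  have key : ∀ k : ℕ, ∀ p : PSeq, Adm p → volume (Nb p) ≤ ENNReal.ofReal ((1 / 8) ^ k) * volume (ball (0 : E2) 1) := by
    intro k
    induction k with
    | zero =>
      intro p _
      simp only [pow_zero, ENNReal.ofReal_one, one_mul]
      apply measure_mono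
      rintro x ⟨hx, _⟩
      simpa using hx
    | succ k ih =>
      intro p hp
      refine (volume_Nb_step hp).trans ?_
      refine (mul_le_mul_right (ih (sh p) hp.sh) _).trans ?_
      rw [← mul_assoc, ← ENNReal.ofReal_mul (by norm_num), ← pow_succ']
  have hlim : Tendsto (fun k : ℕ => ENNReal.ofReal ((1 / 8 : ℝ) ^ k) * volume (ball (0 : E2) 1)) atTop
      (𝓝 (ENNReal.ofReal 0 * volume (ball (0 : E2) 1))) := by
    apply ENNReal.Tendsto.mul_const
    · exact ENNReal.tendsto_ofReal (tendsto_pow_atTop_nhds_zero_of_lt_one (by norm_num) (by norm_num))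
    · right; exact measure_ball_lt_top.ne
  rw [ENNReal.ofReal_zero, zero_mul] at hlim
  exact le_antisymm (ge_of_tendsto hlim (Eventually.of_forall fun k => key k p hp)) bot_le

lemma ae_good {p : PSeq} (hp : Adm p) : ∀ᵐ x, Good (Fi p) x := by
  have h1 : ∀ᵐ x : E2, x ∉ Nb p := by
    rw [ae_iff]; simpa using volume_Nb hp
  have h2 : ∀ᵐ x : E2, x ∉ sphere (0 : E2) 1 := by
    rw [ae_iff]
    simp only [not_not]
    exact Measure.addHaar_sphere (volume : Measure E2) 0 1
  filter_upwards [h1, h2] with x hx1 hx2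
  rcases lt_trichotomy ‖x‖ 1 with h | h | h
  · by_contra hg
    exact hx1 ⟨h, hg⟩
  · exact absurd (by simpa using h) hx2
  · refine (good_id x).congr ?_
    filter_upwards [(isOpen_lt continuous_const continuous_norm).mem_nhds h] with y hy
    exact Fi_id hp (le_of_lt hy)

lemma boundedDistortion_Fi {p : PSeq} (hp : Adm p)
    (h : ∀ m, ∏ i ∈ Finset.range m, ((p i).2 / (p i).1) ≤ 1) : BoundedDistortion univ (Fi p) := by
  refine ⟨fun x => fderiv ℝ (Fi p) x, isW1n_of_locallyLipschitz _ (Fi_lip hp h).locallyLipschitz,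
    KK, by unfold KK; norm_num, ?_⟩
  unfold volOn opN detL
  rw [Measure.restrict_univ]
  filter_upwards [ae_good hp] with x hx
  exact hx.2

/-! ### the symbolic coding -/

/-- sign of a digit -/
noncomputable def sg (b : Bool) : ℝ := if b then 1 / 2 else -(1 / 2)

lemma abs_sg (b : Bool) : |sg b| = 1 / 2 := by
  unfold sg; cases b <;> norm_num

/-- partial products -/
noncomputable def Bp (β : ℕ → ℝ) (m : ℕ) : ℝ := ∏ i ∈ Finset.range m, β i

/-- the coordinate of the point with address `w` -/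
noncomputable def tt (β : ℕ → ℝ) (w : ℕ → Bool) : ℝ := ∑' k, Bp β k * sg (w k)

/-- the point with address `w` -/
noncomputable def pt (β : ℕ → ℝ) (w : ℕ → Bool) : E2 := EuclideanSpace.single 0 (tt β w)

lemma Bp_pos {β : ℕ → ℝ} (h : ∀ i, Ok (β i)) (m : ℕ) : 0 < Bp β m :=
  Finset.prod_pos fun i _ => by linarith [(h i).1]

lemma Bp_le {β : ℕ → ℝ} (h : ∀ i, Ok (β i)) (m : ℕ) : Bp β m ≤ (1 / 4) ^ m := by
  unfold Bp
  calc ∏ i ∈ Finset.range m, β i ≤ ∏ _i ∈ Finset.range m, (1 / 4 : ℝ) := by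
        apply Finset.prod_le_prod
        · intro i _; linarith [(h i).1]
        · intro i _; exact (h i).2
    _ = (1 / 4) ^ m := by simp

lemma Bp_succ' (β : ℕ → ℝ) (m : ℕ) : Bp β (m + 1) = β 0 * Bp (sh β) m := by
  unfold Bp
  rw [Finset.prod_range_succ', mul_comm]
  rfl

lemma Bp_succ (β : ℕ → ℝ) (m : ℕ) : Bp β (m + 1) = Bp β m * β m := by
  unfold Bp
  rw [Finset.prod_range_succ]

lemma summable_tt {β : ℕ → ℝ} (h : ∀ i, Ok (β i)) (w : ℕ → Bool) :
    Summable fun k => Bp β k * sg (w k) := by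
  apply Summable.of_norm_bounded (g := fun k : ℕ => (1 / 2) * (1 / 4 : ℝ) ^ k)
  · exact (summable_geometric_of_lt_one (by norm_num) (by norm_num)).mul_left _
  · intro k
    rw [Real.norm_eq_abs, abs_mul, abs_sg, abs_of_pos (Bp_pos h k)]
    have := Bp_le h k
    linarith

lemma abs_tt_le {β : ℕ → ℝ} (h : ∀ i, Ok (β i)) (w : ℕ → Bool) : |tt β w| ≤ 2 / 3 := by
  have hs : HasSum (fun k : ℕ => (1 / 2) * (1 / 4 : ℝ) ^ k) ((1 / 2) * (1 - 1 / 4)⁻¹) :=
    (hasSum_geometric_of_lt_one (by norm_num) (by norm_num)).mul_left _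
  have := tsum_of_norm_bounded hs (f := fun k => Bp β k * sg (w k)) (by
    intro k
    rw [Real.norm_eq_abs, abs_mul, abs_sg, abs_of_pos (Bp_pos h k)]
    have := Bp_le h k
    linarith)
  unfold tt
  rw [Real.norm_eq_abs] at this
  refine this.trans ?_
  norm_num

lemma tt_succ {β : ℕ → ℝ} (h : ∀ i, Ok (β i)) (w : ℕ → Bool) :
    tt β w = sg (w 0) + β 0 * tt (sh β) (sh w) := by
  unfold tt
  rw [(summable_tt h w).tsum_eq_zero_add, ← tsum_mul_left]
  congr 1
  · simp [Bp]
  · congr 1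
    funext k
    rw [Bp_succ']
    simp only [sh]
    ring

/-- centre of a digit -/
noncomputable def cc (b : Bool) : E2 := if b then cp else cm

lemma cc_eq (b : Bool) : cc b = EuclideanSpace.single 0 (sg b) := by
  unfold cc sg cp cm; cases b <;> simp

lemma pt_succ {β : ℕ → ℝ} (h : ∀ i, Ok (β i)) (w : ℕ → Bool) :
    pt β w = cc (w 0) + β 0 • pt (sh β) (sh w) := by
  unfold pt
  rw [cc_eq, tt_succ h]
  ext i
  by_cases hi : i = 0
  · subst hi; simp
  · simp [hi]

lemma norm_pt (β : ℕ → ℝ) (w : ℕ → Bool) : ‖pt β w‖ = |tt β w| := by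
  rw [norm_E2]; simp [pt, Real.sqrt_sq_eq_abs]

lemma dist_pt (β : ℕ → ℝ) (w w' : ℕ → Bool) : dist (pt β w) (pt β w') = |tt β w - tt β w'| := by
  rw [dist_eq_norm, norm_E2]; simp [pt, Real.sqrt_sq_eq_abs]

lemma Step_cc {a b : ℝ} (ha : Ok a) {g : E2 → E2} (d : Bool) {y : E2} (hy : ‖y‖ ≤ 1) :
    Step a b g (cc d + a • y) = cc d + b • g y := by
  have a0 : 0 < a := by linarith [ha.1]
  have h1 : ‖a • y‖ ≤ a := by
    rw [norm_smul, Real.norm_eq_abs, abs_of_pos a0]; nlinarith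
  cases d with
  | true =>
    simp only [cc, if_true]
    rw [Step_p (by rwa [add_sub_cancel_left]), add_sub_cancel_left, inv_smul_smul₀ a0.ne']
  | false =>
    simp only [cc, Bool.false_eq_true, if_false]
    rw [Step_m ha (by rwa [add_sub_cancel_left]), add_sub_cancel_left, inv_smul_smul₀ a0.ne']

lemma Fi_pt {p : PSeq} (hp : Adm p) (w : ℕ → Bool) :
    Fi p (pt (fun i => (p i).1) w) = pt (fun i => (p i).2) w := by
  have key : ∀ k : ℕ, ∀ p : PSeq, Adm p → ∀ w : ℕ → Bool,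
      ‖Fi p (pt (fun i => (p i).1) w) - pt (fun i => (p i).2) w‖ ≤ 2 * (1 / 4) ^ k := by
    intro k
    induction k with
    | zero =>
      intro p hp w
      have h1 : ‖pt (fun i => (p i).1) w‖ ≤ 1 := by
        rw [norm_pt]; linarith [abs_tt_le (fun i => (hp i).1) w]
      have h2 : ‖pt (fun i => (p i).2) w‖ ≤ 1 := by
        rw [norm_pt]; linarith [abs_tt_le (fun i => (hp i).2) w]
      have h3 := Fi_norm hp h1
      have h4 := norm_sub_le (Fi p (pt (fun i => (p i).1) w)) (pt (fun i => (p i).2) w)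
      simp only [pow_zero, mul_one]
      linarith
    | succ k ih =>
      intro p hp w
      have h1 : ‖pt (sh fun i => (p i).1) (sh w)‖ ≤ 1 := by
        rw [norm_pt]
        have := abs_tt_le (β := sh fun i => (p i).1) (fun i => (hp (i + 1)).1) (sh w)
        linarith
      rw [Fi_step hp, pt_succ (fun i => (hp i).1), pt_succ (fun i => (hp i).2), Step_cc (hp 0).1 _ h1,
        add_sub_add_left_eq_sub, ← smul_sub, norm_smul, Real.norm_eq_abs,
        abs_of_pos (by linarith [(hp 0).2.1])]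
      have := ih (sh p) hp.sh (sh w)
      calc (p 0).2 * ‖Fi (sh p) (pt (sh fun i => (p i).1) (sh w)) - pt (sh fun i => (p i).2) (sh w)‖
          ≤ (1 / 4) * (2 * (1 / 4) ^ k) := by
            apply mul_le_mul (hp 0).2.2 this (norm_nonneg _) (by norm_num)
        _ = 2 * (1 / 4) ^ (k + 1) := by ring
  exact eq_of_geometric fun k => key k p hp w

lemma tt_agree (m : ℕ) : ∀ (β : ℕ → ℝ), (∀ i, Ok (β i)) →
    ∀ w w' : ℕ → Bool, (∀ i < m, w i = w' i) →
    |tt β w - tt β w'| ≤ 4 / 3 * Bp β m ∧ (w m ≠ w' m → 2 / 3 * Bp β m ≤ |tt β w - tt β w'|) := by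
  induction m with
  | zero =>
    intro β h w w' _
    have h1 := abs_le.1 (abs_tt_le h w)
    have h2 := abs_le.1 (abs_tt_le h w')
    refine ⟨?_, ?_⟩
    · simp only [Bp, Finset.range_zero, Finset.prod_empty, mul_one]
      rw [abs_le]; constructor <;> linarith
    · intro hne
      simp only [Bp, Finset.range_zero, Finset.prod_empty, mul_one]
      rw [tt_succ h, tt_succ h]
      have h3 := abs_le.1 (abs_tt_le (β := sh β) (fun i => h (i + 1)) (sh w))
      have h4 := abs_le.1 (abs_tt_le (β := sh β) (fun i => h (i + 1)) (sh w'))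
      have h5 := h 0
      have h6 : |β 0 * (tt (sh β) (sh w) - tt (sh β) (sh w'))| ≤ 1 / 3 := by
        rw [abs_mul, abs_of_pos (by linarith [h5.1])]
        have : |tt (sh β) (sh w) - tt (sh β) (sh w')| ≤ 4 / 3 := by
          rw [abs_le]
          constructor
          · linarith [h3.1, h4.2]
          · linarith [h3.2, h4.1]
        nlinarith [h5.2, h5.1, abs_nonneg (tt (sh β) (sh w) - tt (sh β) (sh w'))]
      have h7 := abs_le.1 h6
      have h8 : sg (w 0) - sg (w' 0) = 1 ∨ sg (w 0) - sg (w' 0) = -1 := by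
        unfold sg
        cases ha : w 0 <;> cases hb : w' 0 <;> simp [ha, hb] at hne ⊢ <;> norm_num
      rcases h8 with h8 | h8
      · refine le_trans ?_ (le_abs_self _)
        linarith [h7.1]
      · rw [abs_sub_comm]
        refine le_trans ?_ (le_abs_self _)
        linarith [h7.2]
  | succ m ih =>
    intro β h w w' hag
    have h0 : w 0 = w' 0 := hag 0 (Nat.succ_pos _)
    have e : tt β w - tt β w' = β 0 * (tt (sh β) (sh w) - tt (sh β) (sh w')) := by
      rw [tt_succ h, tt_succ h w', h0]; ring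
    have hpos : 0 < β 0 := by linarith [(h 0).1]
    obtain ⟨i1, i2⟩ := ih (sh β) (fun i => h (i + 1)) (sh w) (sh w') (fun i hi => hag (i + 1) (by omega))
    rw [e, abs_mul, abs_of_pos hpos, Bp_succ']
    refine ⟨by nlinarith, fun hne => ?_⟩
    have := i2 hne
    nlinarith

end Pool.Agent.V1190.Nag
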